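import Pool.Agent.H171R3.AK.Defs

set_option autoImplicit false

open Real Set Filter Topology

namespace H171AK

section cone

variable {U : Type*} [MetricSpace U]

/-- cosine of the angle at the apex of the cone over `U` -/
noncomputable def kk (a u : U) : ℝ := cos (min (dist a u) π)

theorem kk_self (a : U) : kk a a = 1 := by
  simp [kk, pi_pos.le]

theorem kk_comm (a b : U) : kk a b = kk b a := by
  simp [kk, dist_comm]

theorem kk_of_le {a b : U} (h : dist a b ≤ π) : kk a b = cos (dist a b) := by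
  rw [kk, min_eq_left h]

theorem kk_of_ge {a b : U} (h : π ≤ dist a b) : kk a b = -1 := by
  rw [kk, min_eq_right h, cos_pi]

theorem kk_le_one (a b : U) : kk a b ≤ 1 := cos_le_one _

theorem neg_one_le_kk (a b : U) : -1 ≤ kk a b := neg_one_le_cos _

theorem abs_kk_le_one (a b : U) : |kk a b| ≤ 1 := abs_cos_le_one _

theorem cos_le_kk {a b : U} {t : ℝ} (h0 : dist a b ≤ t) (h1 : t ≤ π) : cos t ≤ kk a b := by
  rw [kk_of_le (h0.trans h1)]
  exact cos_le_cos_of_nonneg_of_le_pi dist_nonneg h1 h0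

theorem dist_le_of_cos_le_kk {a b : U} {t : ℝ} (h0 : 0 ≤ t) (h2 : t < π)
    (h : cos t ≤ kk a b) : dist a b ≤ t := by
  by_contra hc
  push Not at hc
  have h3 : t < min (dist a b) π := lt_min hc h2
  have := cos_lt_cos_of_nonneg_of_le_pi h0 (min_le_right _ _) h3
  rw [kk] at h
  linarith

theorem continuous_kk (a : U) : Continuous fun u => kk a u := by
  unfold kk
  exact continuous_cos.comp ((continuous_const.dist continuous_id).min continuous_const)

theorem min_sq_le (a b : U) : (min (dist a b) π) ^ 2 ≤ π ^ 2 / 2 * (1 - kk a b) := by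
  have h0 : 0 ≤ min (dist a b) π := le_min dist_nonneg pi_pos.le
  have := Real.cos_le_one_sub_mul_cos_sq (x := min (dist a b) π)
    (by rw [abs_of_nonneg h0]; exact min_le_right _ _)
  rw [kk]
  have hp : (0 : ℝ) < π ^ 2 := by positivity
  have h2 : 2 / π ^ 2 * (min (dist a b) π) ^ 2 ≤ 1 - cos (min (dist a b) π) := by linarith
  calc (min (dist a b) π) ^ 2 = π ^ 2 / 2 * (2 / π ^ 2 * (min (dist a b) π) ^ 2) := by
        field_simp
    _ ≤ _ := mul_le_mul_of_nonneg_left h2 (by positivity)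

/-- the sum lemma in the cone -/
def SLp (U : Type*) [MetricSpace U] : Prop :=
  ∀ r r' : ℝ, 0 ≤ r → 0 ≤ r' → ∀ u u' : U, ∃ (R : ℝ) (v : U), 0 ≤ R ∧
    R ^ 2 = r ^ 2 + r' ^ 2 + 2 * r * r' * kk u u' ∧
    ∀ a : U, r * kk a u + r' * kk a u' ≤ R * kk a v

/-- squared distance in the cone -/
noncomputable def d2 (r : ℝ) (u : U) (r' : ℝ) (u' : U) : ℝ :=
  r ^ 2 + r' ^ 2 - 2 * r * r' * kk u u'

theorem d2_ge (r : ℝ) (u : U) (r' : ℝ) (u' : U) (hr : 0 ≤ r) (hr' : 0 ≤ r') :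
    (r - r') ^ 2 ≤ d2 r u r' u' := by
  have : 0 ≤ r * r' * (1 - kk u u') :=
    mul_nonneg (mul_nonneg hr hr') (by linarith [kk_le_one u u'])
  unfold d2
  nlinarith

theorem cone_complete [CompleteSpace U] {β : Type*} [Nonempty β] [SemilatticeSup β]
    (r : β → ℝ) (u : β → U) (hr : ∀ i, 0 ≤ r i)
    (hC : ∀ ε > 0, ∃ N, ∀ m ≥ N, ∀ n ≥ N, d2 (r m) (u m) (r n) (u n) < ε) :
    ∃ (r' : ℝ) (u' : U), 0 ≤ r' ∧ Tendsto r atTop (𝓝 r') ∧
      ∀ a, Tendsto (fun i => r i * kk a (u i)) atTop (𝓝 (r' * kk a u')) := by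
  have hrC : CauchySeq r := by
    rw [Metric.cauchySeq_iff]
    intro ε hε
    obtain ⟨N, hN⟩ := hC (ε ^ 2) (by positivity)
    refine ⟨N, fun m hm n hn => ?_⟩
    have h1 := d2_ge (r m) (u m) (r n) (u n) (hr m) (hr n)
    have h2 := hN m hm n hn
    rw [Real.dist_eq]
    exact abs_lt_of_sq_lt_sq (by linarith) hε.le
  obtain ⟨r', hr'⟩ := cauchySeq_tendsto_of_complete hrC
  have hr'0 : 0 ≤ r' := ge_of_tendsto' hr' hr
  rcases hr'0.eq_or_lt with h0 | hpos
  · obtain ⟨i0⟩ := ‹Nonempty β›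
    refine ⟨r', u i0, hr'0, hr', fun a => ?_⟩
    rw [← h0, zero_mul]
    rw [← h0] at hr'
    refine squeeze_zero_norm (fun i => ?_) hr'
    rw [Real.norm_eq_abs, abs_mul, abs_of_nonneg (hr i)]
    exact mul_le_of_le_one_right (hr i) (abs_kk_le_one _ _)
  · have huC : CauchySeq u := by
      rw [Metric.cauchySeq_iff]
      intro ε hε
      set ε' := min ε π with hε'
      have hε'0 : 0 < ε' := lt_min hε pi_pos
      have hev : ∀ᶠ i in atTop, r' / 2 < r i := hr'.eventually_const_lt (by linarith)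
      obtain ⟨N1, hN1⟩ := eventually_atTop.1 hev
      obtain ⟨N2, hN2⟩ := hC (ε' ^ 2 * r' ^ 2 / π ^ 2) (by positivity)
      refine ⟨N1 ⊔ N2, fun m hm n hn => ?_⟩
      have a1 := hN1 m (le_sup_left.trans hm)
      have a2 := hN1 n (le_sup_left.trans hn)
      have a3 := hN2 m (le_sup_right.trans hm) n (le_sup_right.trans hn)
      have a4 := min_sq_le (u m) (u n)
      have a5 : r' ^ 2 / 2 * (1 - kk (u m) (u n)) ≤ d2 (r m) (u m) (r n) (u n) := by
        have b1 : 0 ≤ 1 - kk (u m) (u n) := by linarith [kk_le_one (u m) (u n)]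
        have b2 : r' ^ 2 / 4 ≤ r m * r n := by nlinarith
        have b3 : r' ^ 2 / 4 * (1 - kk (u m) (u n)) ≤ r m * r n * (1 - kk (u m) (u n)) :=
          mul_le_mul_of_nonneg_right b2 b1
        unfold d2
        nlinarith [sq_nonneg (r m - r n)]
      have a6 : (min (dist (u m) (u n)) π) ^ 2 < ε' ^ 2 := by
        have hp : (0 : ℝ) < π ^ 2 := by positivity
        have hq : (0 : ℝ) < r' ^ 2 := by positivity
        have c1 : r' ^ 2 / 2 * (1 - kk (u m) (u n)) < ε' ^ 2 * r' ^ 2 / π ^ 2 := a5.trans_lt a3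
        rw [lt_div_iff₀ hp] at c1
        have c2 : r' ^ 2 * (π ^ 2 / 2 * (1 - kk (u m) (u n))) < r' ^ 2 * ε' ^ 2 := by nlinarith
        have c3 := lt_of_mul_lt_mul_left c2 hq.le
        linarith
      have a7 : min (dist (u m) (u n)) π < ε' :=
        lt_of_pow_lt_pow_left₀ 2 hε'0.le a6
      rcases min_lt_iff.1 a7 with h | h
      · exact h.trans_le (min_le_left _ _)
      · exact absurd (h.trans_le (min_le_right _ _)) (lt_irrefl _)
    obtain ⟨u', hu'⟩ := cauchySeq_tendsto_of_complete huC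
    exact ⟨r', u', hr'0, hr', fun a => hr'.mul (((continuous_kk a).tendsto _).comp hu')⟩

theorem midpoint (hSL : SLp U) (r r' : ℝ) (hr : 0 ≤ r) (hr' : 0 ≤ r') (u u' : U) :
    ∃ (R : ℝ) (v : U), 0 ≤ R ∧ R ^ 2 = (r ^ 2 + r' ^ 2) / 2 - d2 r u r' u' / 4 ∧
      ∀ a : U, (r * kk a u + r' * kk a u') / 2 ≤ R * kk a v := by
  obtain ⟨R, v, h0, h1, h2⟩ := hSL r r' hr hr' u u'
  refine ⟨R / 2, v, by positivity, ?_, fun a => ?_⟩
  · rw [div_pow, h1]; unfold d2; ring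
  · have := h2 a; linarith

/-- weak compactness of the cone -/
theorem WC [CompleteSpace U] (hSL : SLp U) {J : Type*} (a : J → U) (c : J → ℝ) (B : ℝ)
    (h : ∀ (F : Finset J) (δ : ℝ), 0 < δ → ∃ (r : ℝ) (u : U), 0 ≤ r ∧ r ≤ B ∧
      ∀ i ∈ F, c i - δ ≤ r * kk (a i) u) :
    ∃ (r : ℝ) (u : U), 0 ≤ r ∧ r ≤ B ∧ ∀ i, c i ≤ r * kk (a i) u := by
  classical
  -- admissible values
  let A : Finset J × ℕ → Set ℝ := fun i =>
    {s | ∃ (r : ℝ) (u : U), 0 ≤ r ∧ s = r ^ 2 ∧ ∀ j ∈ i.1, c j - 1 / ((i.2 : ℝ) + 1) ≤ r * kk (a j) u}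
  have hB0 : 0 ≤ B := by
    obtain ⟨r, u, h1, h2, _⟩ := h ∅ 1 one_pos
    linarith
  have hδ : ∀ n : ℕ, (0 : ℝ) < 1 / ((n : ℝ) + 1) := fun n => by positivity
  have hA1 : ∀ i, ∃ s ∈ A i, s ≤ B ^ 2 := by
    intro i
    obtain ⟨r, u, h1, h2, h3⟩ := h i.1 _ (hδ i.2)
    exact ⟨r ^ 2, ⟨r, u, h1, rfl, h3⟩, pow_le_pow_left₀ h1 h2 2⟩
  have hAb : ∀ i, BddBelow (A i) := fun i => ⟨0, by
    rintro s ⟨r, u, _, rfl, _⟩; positivity⟩
  have hAm : ∀ i j, i ≤ j → A j ⊆ A i := by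
    rintro i j hij s ⟨r, u, h1, h2, h3⟩
    refine ⟨r, u, h1, h2, fun k hk => ?_⟩
    have h4 := h3 k (hij.1 hk)
    have h5 : 1 / ((j.2 : ℝ) + 1) ≤ 1 / ((i.2 : ℝ) + 1) := by
      apply one_div_le_one_div_of_le (by positivity)
      have : (i.2 : ℝ) ≤ j.2 := by exact_mod_cast hij.2
      linarith
    linarith
  let m : Finset J × ℕ → ℝ := fun i => sInf (A i)
  have hmB : ∀ i, m i ≤ B ^ 2 := fun i => by
    obtain ⟨s, hs, hs'⟩ := hA1 i
    exact (csInf_le (hAb i) hs).trans hs'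
  have hbdd : BddAbove (range m) := ⟨B ^ 2, by rintro _ ⟨i, rfl⟩; exact hmB i⟩
  set M := ⨆ i, m i with hM
  have hMB : M ≤ B ^ 2 := ciSup_le hmB
  have hch : ∀ i : Finset J × ℕ, ∃ (r : ℝ) (u : U), 0 ≤ r ∧ r ^ 2 < M + 1 / ((i.2 : ℝ) + 1) ∧
      ∀ j ∈ i.1, c j - 1 / ((i.2 : ℝ) + 1) ≤ r * kk (a j) u := by
    intro i
    obtain ⟨s0, hs0, _⟩ := hA1 i
    obtain ⟨s, ⟨r, u, h1, rfl, h3⟩, hs⟩ := exists_lt_of_csInf_lt ⟨s0, hs0⟩
      (lt_add_of_pos_right (sInf (A i)) (hδ i.2))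
    refine ⟨r, u, h1, hs.trans_le ?_, h3⟩
    have : m i ≤ M := le_ciSup hbdd i
    linarith
  choose r u hr0 hrM hrc using hch
  obtain ⟨r', u', h0', hlim, hlim2⟩ := cone_complete r u hr0 (by
    intro ε hε
    obtain ⟨i0, hi0⟩ := exists_lt_of_lt_ciSup (show M - ε / 16 < ⨆ i, m i by linarith)
    obtain ⟨n0, hn0⟩ := exists_nat_one_div_lt (show (0 : ℝ) < ε / 16 by positivity)
    refine ⟨i0 ⊔ (∅, n0), fun i hi j hj => ?_⟩
    have key : ∀ i, i0 ⊔ (∅, n0) ≤ i → r i ^ 2 < M + ε / 16 := by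
      intro i hi
      have h1 : n0 ≤ i.2 := (le_sup_right.trans hi).2
      have h2 : 1 / ((i.2 : ℝ) + 1) ≤ 1 / ((n0 : ℝ) + 1) := by
        apply one_div_le_one_div_of_le (by positivity)
        have : (n0 : ℝ) ≤ i.2 := by exact_mod_cast h1
        linarith
      linarith [hrM i]
    have mem : ∀ i, i0 ⊔ (∅, n0) ≤ i → ∀ k ∈ i0.1, c k - 1 / ((i0.2 : ℝ) + 1) ≤
        r i * kk (a k) (u i) := by
      intro i hi k hk
      have h1 : i0 ≤ i := le_sup_left.trans hi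
      have h2 := hrc i k (h1.1 hk)
      have h3 : 1 / ((i.2 : ℝ) + 1) ≤ 1 / ((i0.2 : ℝ) + 1) := by
        apply one_div_le_one_div_of_le (by positivity)
        have : (i0.2 : ℝ) ≤ i.2 := by exact_mod_cast h1.2
        linarith
      linarith
    obtain ⟨R, v, hR0, hR2, hRk⟩ := midpoint hSL (r i) (r j) (hr0 i) (hr0 j) (u i) (u j)
    have hmem : R ^ 2 ∈ A i0 := ⟨R, v, hR0, rfl, fun k hk => by
      have e1 := mem i hi k hk
      have e2 := mem j hj k hk
      have e3 := hRk (a k)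
      linarith⟩
    have h5 := csInf_le (hAb i0) hmem
    have h6 : M - ε / 16 < R ^ 2 := lt_of_lt_of_le hi0 h5
    have h7 := key i hi
    have h8 := key j hj
    linarith)
  have hone : Tendsto (fun i : Finset J × ℕ => 1 / ((i.2 : ℝ) + 1)) atTop (𝓝 0) :=
    tendsto_one_div_add_atTop_nhds_zero_nat.comp
      (tendsto_atTop_mono (fun i => le_rfl) (by
        rw [← prod_atTop_atTop_eq]; exact tendsto_snd))
  refine ⟨r', u', h0', ?_, fun j => ?_⟩
  · have h1 : r' ^ 2 ≤ M := by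
      have := le_of_tendsto_of_tendsto' (hlim.pow 2) (hone.const_add M) fun i => (hrM i).le
      simpa using this
    exact abs_le_of_sq_le_sq' (h1.trans hMB) hB0 |>.2
  · have h1 : ∀ᶠ i : Finset J × ℕ in atTop, c j - 1 / ((i.2 : ℝ) + 1) ≤ r i * kk (a j) (u i) := by
      filter_upwards [eventually_ge_atTop (({j}, 0) : Finset J × ℕ)] with i hi
      exact hrc i j (hi.1 (Finset.mem_singleton_self j))
    have := le_of_tendsto_of_tendsto (hone.const_sub (c j)) (hlim2 (a j)) h1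
    simpa using this

end cone

end H171AK
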