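import Mathlib

set_option autoImplicit false

open Real Set

namespace H171AK

/-- A length space: the distance between two points is the infimum of the lengths of the curves
joining them (the length of a curve is its variation). -/
def IsLength (X : Type*) [MetricSpace X] : Prop :=
  ∀ x y : X, ∀ ε > 0, ∃ γ : ℝ → X, ContinuousOn γ (Icc 0 1) ∧ γ 0 = x ∧ γ 1 = y ∧
    eVariationOn γ (Icc 0 1) ≤ ENNReal.ofReal (dist x y + ε)

/-- Angle of a spherical triangle with sides `a`, `b` at the vertex and opposite side `c`, by the
spherical law of cosines. -/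
noncomputable def modelAngle (a b c : ℝ) : ℝ :=
  arccos ((cos c - cos a * cos b) / (sin a * sin b))

/-- Complete length spaces of curvature at least `1` in the sense of Alexandrov: triples have
perimeter at most `2π` (this excludes only the exceptional one-dimensional spaces), and the
four-point comparison: for `p` and `x, y, z` the three model angles at `p` sum to at most `2π`
whenever they are defined. -/
structure IsAlex1 (L : Type*) [MetricSpace L] : Prop where
  complete : CompleteSpace L
  length : IsLength L
  per : ∀ x y z : L, dist x y + dist y z + dist z x ≤ 2 * π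
  quad : ∀ p x y z : L, p ≠ x → p ≠ y → p ≠ z →
    dist p x + dist p y + dist x y < 2 * π → dist p y + dist p z + dist y z < 2 * π →
    dist p z + dist p x + dist z x < 2 * π →
    modelAngle (dist p x) (dist p y) (dist x y) + modelAngle (dist p y) (dist p z) (dist y z) +
      modelAngle (dist p z) (dist p x) (dist z x) ≤ 2 * π

/-- Complete length `CAT(1)` spaces: points at distance less than `π` are joined by a geodesic, and
for every triangle `x, y, z` of perimeter less than `2π` and every point `w` between `y` and `z`
the distance from `x` to `w` is at most the distance in the comparison triangle of the unit sphere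
(written with the spherical law of cosines). -/
structure IsCAT1 (U : Type*) [MetricSpace U] : Prop where
  complete : CompleteSpace U
  length : IsLength U
  geod : ∀ y z : U, dist y z < π → ∃ γ : ℝ → U, γ 0 = y ∧ γ (dist y z) = z ∧
    ∀ s ∈ Icc 0 (dist y z), ∀ t ∈ Icc 0 (dist y z), dist (γ s) (γ t) = |s - t|
  comp : ∀ x y z w : U, dist x y + dist y z + dist z x < 2 * π → dist y w + dist w z = dist y z →
    sin (dist w z) * cos (dist x y) + sin (dist y w) * cos (dist x z) ≤
      sin (dist y z) * cos (dist x w)

theorem near_point {X : Type*} [MetricSpace X] (h : IsLength X) (x y : X) (r : ℝ) (h0 : 0 ≤ r)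
    (h1 : r ≤ dist x y) (ε : ℝ) (hε : 0 < ε) :
    ∃ w, dist x w = r ∧ dist w y ≤ dist x y - r + ε := by
  obtain ⟨γ, hc, hx, hy, hl⟩ := h x y ε hε
  have hcd : ContinuousOn (fun t => dist x (γ t)) (Icc (0 : ℝ) 1) :=
    (continuous_const.dist continuous_id).comp_continuousOn hc
  have hivt := intermediate_value_Icc (zero_le_one (α := ℝ)) hcd
  simp only [hx, hy, dist_self] at hivt
  obtain ⟨t, ht, htr'⟩ := hivt ⟨h0, h1⟩
  have htr : dist x (γ t) = r := htr'
  refine ⟨γ t, htr, ?_⟩
  have e1 : edist (γ 0) (γ t) ≤ eVariationOn γ (Icc 0 t) :=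
    eVariationOn.edist_le γ ⟨le_rfl, ht.1⟩ ⟨ht.1, le_rfl⟩
  have e2 : edist (γ t) (γ 1) ≤ eVariationOn γ (Icc t 1) :=
    eVariationOn.edist_le γ ⟨le_rfl, ht.2⟩ ⟨ht.2, le_rfl⟩
  have e3 : eVariationOn γ (Icc 0 t) + eVariationOn γ (Icc t 1) = eVariationOn γ (Icc 0 1) := by
    have := eVariationOn.Icc_add_Icc γ (s := univ) ht.1 ht.2 (mem_univ t)
    simpa using this
  have e4 : edist (γ 0) (γ t) + edist (γ t) (γ 1) ≤ ENNReal.ofReal (dist x y + ε) :=
    (add_le_add e1 e2).trans (e3.le.trans hl)
  rw [hx, hy, edist_dist, edist_dist, ← ENNReal.ofReal_add dist_nonneg dist_nonneg,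
    ENNReal.ofReal_le_ofReal_iff (by positivity), htr] at e4
  linarith

end H171AK
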