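import Pool.Agent.H171R3.AK.Cone

set_option autoImplicit false

open Real Set Filter Topology

namespace H171AK

theorem posPart_sq_mid (x y z : ℝ) (h : z ≤ (x + y) / 2) :
    (max z 0) ^ 2 ≤ ((max x 0) ^ 2 + (max y 0) ^ 2) / 2 := by
  have h1 : max z 0 ≤ (max x 0 + max y 0) / 2 := by
    refine max_le ?_ ?_
    · have := le_max_left x 0
      have := le_max_left y 0
      linarith
    · have := le_max_right x 0
      have := le_max_right y 0
      linarith
  have h2 : 0 ≤ max z 0 := le_max_right _ _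
  nlinarith [sq_nonneg (max x 0 - max y 0)]

theorem posPart_sub_sq (x h : ℝ) :
    (max (x - h) 0) ^ 2 ≤ (max x 0) ^ 2 - 2 * h * max x 0 + h ^ 2 := by
  rcases le_total (x - h) 0 with h1 | h1
  · rw [max_eq_right h1]
    nlinarith [sq_nonneg (max x 0 - h)]
  · rw [max_eq_left h1]
    rcases le_total x 0 with h2 | h2
    · rw [max_eq_right h2]; nlinarith
    · rw [max_eq_left h2]; nlinarith

theorem posPart_sq_anti (x y : ℝ) (h : x ≤ y) : (max x 0) ^ 2 ≤ (max y 0) ^ 2 :=
  pow_le_pow_left₀ (le_max_right _ _) (max_le_max h le_rfl) 2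

variable {U : Type*} [MetricSpace U]

/-- the functional minimised -/
noncomputable def Phi {ι : Type*} [Fintype ι] (a : ι → U) (c : ι → ℝ) (κ : ℝ) (r : ℝ) (u : U) : ℝ :=
  ∑ i, (max (c i - r * kk (a i) u) 0) ^ 2 + κ * r ^ 2

theorem Phi_min [CompleteSpace U] [Nonempty U] (hSL : SLp U) {ι : Type*} [Fintype ι]
    (a : ι → U) (c : ι → ℝ) (κ : ℝ) (hκ : 0 < κ) :
    ∃ (r : ℝ) (u : U), 0 ≤ r ∧ ∀ r' u', 0 ≤ r' → Phi a c κ r u ≤ Phi a c κ r' u' := by
  obtain ⟨u00⟩ := ‹Nonempty U›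
  set A : Set ℝ := {s | ∃ (r : ℝ) (u : U), 0 ≤ r ∧ s = Phi a c κ r u} with hA
  have hAb : BddBelow A := ⟨0, by
    rintro s ⟨r, u, _, rfl⟩
    unfold Phi; positivity⟩
  have hAn : A.Nonempty := ⟨_, 0, u00, le_rfl, rfl⟩
  have hδ : ∀ n : ℕ, (0 : ℝ) < 1 / ((n : ℝ) + 1) := fun n => by positivity
  have hch : ∀ n : ℕ, ∃ (r : ℝ) (u : U), 0 ≤ r ∧ Phi a c κ r u < sInf A + 1 / ((n : ℝ) + 1) := by
    intro n
    obtain ⟨s, ⟨r, u, h1, rfl⟩, hs⟩ := exists_lt_of_csInf_lt hAn
      (lt_add_of_pos_right (sInf A) (hδ n))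
    exact ⟨r, u, h1, hs⟩
  choose r u hr0 hrP using hch
  obtain ⟨r', u', h0', hlim, hlim2⟩ := cone_complete r u hr0 (by
    intro ε hε
    obtain ⟨n0, hn0⟩ := exists_nat_one_div_lt (show (0 : ℝ) < κ * ε / 8 by positivity)
    refine ⟨n0, fun i hi j hj => ?_⟩
    have key : ∀ i, n0 ≤ i → Phi a c κ (r i) (u i) < sInf A + κ * ε / 8 := by
      intro i hi
      have h2 : 1 / ((i : ℝ) + 1) ≤ 1 / ((n0 : ℝ) + 1) := by
        apply one_div_le_one_div_of_le (by positivity)
        have : (n0 : ℝ) ≤ i := by exact_mod_cast hi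
        linarith
      linarith [hrP i]
    obtain ⟨R, v, hR0, hR2, hRk⟩ := midpoint hSL (r i) (r j) (hr0 i) (hr0 j) (u i) (u j)
    have h5 : sInf A ≤ Phi a c κ R v := csInf_le hAb ⟨R, v, hR0, rfl⟩
    have h6 : Phi a c κ R v ≤ (Phi a c κ (r i) (u i) + Phi a c κ (r j) (u j)) / 2 -
        κ * d2 (r i) (u i) (r j) (u j) / 4 := by
      unfold Phi
      have : ∑ k, (max (c k - R * kk (a k) v) 0) ^ 2 ≤
          (∑ k, (max (c k - r i * kk (a k) (u i)) 0) ^ 2 +
            ∑ k, (max (c k - r j * kk (a k) (u j)) 0) ^ 2) / 2 := by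
        rw [← Finset.sum_add_distrib, Finset.sum_div]
        refine Finset.sum_le_sum fun k _ => posPart_sq_mid _ _ _ ?_
        have := hRk (a k)
        linarith
      rw [hR2]
      nlinarith
    have h7 := key i hi
    have h8 := key j hj
    have h9 : κ * d2 (r i) (u i) (r j) (u j) < κ * ε := by linarith [mul_pos hκ hε]
    exact lt_of_mul_lt_mul_left h9 hκ.le)
  refine ⟨r', u', h0', fun r'' u'' hr'' => ?_⟩
  have hlimP : Tendsto (fun n => Phi a c κ (r n) (u n)) atTop (𝓝 (Phi a c κ r' u')) := by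
    unfold Phi
    refine Tendsto.add (tendsto_finsetSum _ fun i _ => ?_) ((hlim.pow 2).const_mul κ)
    exact (((hlim2 (a i)).const_sub (c i)).max tendsto_const_nhds).pow 2
  have hup : Tendsto (fun n : ℕ => sInf A + 1 / ((n : ℝ) + 1)) atTop (𝓝 (sInf A)) := by
    simpa using (tendsto_one_div_add_atTop_nhds_zero_nat (𝕜 := ℝ)).const_add (sInf A)
  have h1 : Phi a c κ r' u' ≤ sInf A := le_of_tendsto_of_tendsto' hlimP hup fun n => (hrP n).le
  exact h1.trans (csInf_le hAb ⟨r'', u'', hr'', rfl⟩)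

theorem K_fin [CompleteSpace U] [Nonempty U] (hSL : SLp U) {ι : Type*} [Fintype ι]
    (a : ι → U) (c : ι → ℝ)
    (h : ∀ l : ι → ℝ, (∀ i, 0 ≤ l i) →
      (∑ i, l i * c i) ^ 2 ≤ ∑ j, l j * ∑ i, l i * kk (a i) (a j))
    (δ : ℝ) (hδ : 0 < δ) :
    ∃ (r : ℝ) (u : U), 0 ≤ r ∧ r ≤ 1 ∧ ∀ i, c i - δ ≤ r * kk (a i) u := by
  set κ := 4 * δ ^ 2 with hκd
  have hκ : 0 < κ := by positivity
  obtain ⟨r, u, hr, hmin⟩ := Phi_min hSL a c κ hκ
  set l : ι → ℝ := fun i => max (c i - r * kk (a i) u) 0 with hl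
  have hl0 : ∀ i, 0 ≤ l i := fun i => le_max_right _ _
  have hPhi : Phi a c κ r u = ∑ i, l i ^ 2 + κ * r ^ 2 := rfl
  -- FO1
  have FO1 : ∑ i, l i * (r * kk (a i) u) = κ * r ^ 2 := by
    set P := ∑ i, l i * (r * kk (a i) u) with hP
    set V := ∑ i, (r * kk (a i) u) ^ 2 with hV
    have hV0 : 0 ≤ V := Finset.sum_nonneg fun i _ => sq_nonneg _
    have hh : ∀ t : ℝ, -1 ≤ t → 0 ≤ 2 * t * (κ * r ^ 2 - P) + t ^ 2 * (V + κ * r ^ 2) := by
      intro t ht
      have h1 := hmin ((1 + t) * r) u (by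
        have : 0 ≤ 1 + t := by linarith
        positivity)
      rw [hPhi] at h1
      have h2 : Phi a c κ ((1 + t) * r) u ≤
          ∑ i, (l i ^ 2 - 2 * (t * (r * kk (a i) u)) * l i + (t * (r * kk (a i) u)) ^ 2) +
            κ * ((1 + t) * r) ^ 2 := by
        unfold Phi
        gcongr with i _
        have := posPart_sub_sq (c i - r * kk (a i) u) (t * (r * kk (a i) u))
        have e : c i - (1 + t) * r * kk (a i) u = c i - r * kk (a i) u - t * (r * kk (a i) u) := by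
          ring
        rw [e]
        exact this
      have e3 : ∑ i, (l i ^ 2 - 2 * (t * (r * kk (a i) u)) * l i + (t * (r * kk (a i) u)) ^ 2) =
          ∑ i, l i ^ 2 - 2 * t * P + t ^ 2 * V := by
        rw [hP, hV, Finset.mul_sum, Finset.mul_sum, ← Finset.sum_sub_distrib,
          ← Finset.sum_add_distrib]
        refine Finset.sum_congr rfl fun i _ => ?_
        ring
      rw [e3] at h2
      nlinarith
    -- conclude
    set W := V + κ * r ^ 2 with hW
    have hW0 : 0 ≤ W := by positivity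
    by_contra hne
    set E := κ * r ^ 2 - P with hE
    have hE0 : E ≠ 0 := fun h0 => hne (by linarith)
    have hEpos : 0 < |E| := abs_pos.2 hE0
    -- take t = - sign(E) * ε
    set ε := min 1 (|E| / (W + 1)) with hε
    have hε0 : 0 < ε := lt_min one_pos (by positivity)
    have hε1 : ε ≤ 1 := min_le_left _ _
    have hε2 : ε * (W + 1) ≤ |E| := by
      have : ε ≤ |E| / (W + 1) := min_le_right _ _
      rwa [le_div_iff₀ (by positivity)] at this
    rcases lt_or_gt_of_ne hE0 with hneg | hpos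
    · have := hh ε (by linarith)
      rw [abs_of_neg hneg] at hε2
      nlinarith
    · have := hh (-ε) (by linarith)
      rw [abs_of_pos hpos] at hε2
      nlinarith
  -- FO2
  have FO2 : ∀ j, ∑ i, l i * kk (a i) (a j) ≤ κ * (r * kk (a j) u) := by
    intro j
    set P := ∑ i, l i * kk (a i) (a j) with hP
    set V := ∑ i, (kk (a i) (a j)) ^ 2 with hV
    have hV0 : 0 ≤ V := Finset.sum_nonneg fun i _ => sq_nonneg _
    have hh : ∀ t : ℝ, 0 < t → 0 ≤ 2 * (κ * (r * kk (a j) u) - P) + t * (V + κ) := by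
      intro t ht
      obtain ⟨R, v, hR0, hR2, hRk⟩ := hSL r t hr ht.le u (a j)
      have h1 := hmin R v hR0
      rw [hPhi] at h1
      have h2 : Phi a c κ R v ≤
          ∑ i, (l i ^ 2 - 2 * (t * kk (a i) (a j)) * l i + (t * kk (a i) (a j)) ^ 2) +
            κ * R ^ 2 := by
        unfold Phi
        gcongr with i _
        have := posPart_sub_sq (c i - r * kk (a i) u) (t * kk (a i) (a j))
        refine (posPart_sq_anti _ _ ?_).trans this
        have := hRk (a i)
        linarith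
      have e3 : ∑ i, (l i ^ 2 - 2 * (t * kk (a i) (a j)) * l i + (t * kk (a i) (a j)) ^ 2) =
          ∑ i, l i ^ 2 - 2 * t * P + t ^ 2 * V := by
        rw [hP, hV, Finset.mul_sum, Finset.mul_sum, ← Finset.sum_sub_distrib,
          ← Finset.sum_add_distrib]
        refine Finset.sum_congr rfl fun i _ => ?_
        ring
      rw [e3, hR2, kk_comm u (a j)] at h2
      have h3 : 0 ≤ t * (2 * (κ * (r * kk (a j) u) - P) + t * (V + κ)) := by nlinarith
      exact nonneg_of_mul_nonneg_right h3 ht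
    by_contra hne
    push Not at hne
    set E := P - κ * (r * kk (a j) u) with hE
    have hEpos : 0 < E := by linarith
    have hVκ : 0 < V + κ := by positivity
    have := hh (E / (V + κ)) (by positivity)
    have e1 : E / (V + κ) * (V + κ) = E := by field_simp
    rw [e1] at this
    linarith
  have h1 := h l hl0
  have h2 : ∑ j, l j * ∑ i, l i * kk (a i) (a j) ≤ κ * (κ * r ^ 2) := by
    calc ∑ j, l j * ∑ i, l i * kk (a i) (a j) ≤ ∑ j, l j * (κ * (r * kk (a j) u)) :=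
          Finset.sum_le_sum fun j _ => mul_le_mul_of_nonneg_left (FO2 j) (hl0 j)
      _ = κ * ∑ j, l j * (r * kk (a j) u) := by
          rw [Finset.mul_sum]
          exact Finset.sum_congr rfl fun j _ => by ring
      _ = _ := by rw [FO1]
  have h3 : ∑ i, l i * c i ≤ κ * r := by
    have : (∑ i, l i * c i) ^ 2 ≤ (κ * r) ^ 2 := by nlinarith
    exact abs_le_of_sq_le_sq' this (by positivity) |>.2
  have h4 : ∑ i, l i ^ 2 = ∑ i, l i * c i - κ * r ^ 2 := by
    rw [← FO1, ← Finset.sum_sub_distrib]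
    refine Finset.sum_congr rfl fun i _ => ?_
    have : l i ^ 2 = l i * (c i - r * kk (a i) u) := by
      simp only [hl]
      rcases le_total (c i - r * kk (a i) u) 0 with h0 | h0
      · rw [max_eq_right h0]; ring
      · rw [max_eq_left h0]; ring
    rw [this]; ring
  have h5 : 0 ≤ ∑ i, l i ^ 2 := Finset.sum_nonneg fun i _ => sq_nonneg _
  have hr1 : r ≤ 1 := by
    by_contra hc
    push Not at hc
    nlinarith [mul_pos hκ (show 0 < r by linarith)]
  refine ⟨r, u, hr, hr1, fun i => ?_⟩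
  have h6 : l i ^ 2 ≤ δ ^ 2 := by
    calc l i ^ 2 ≤ ∑ i, l i ^ 2 :=
          Finset.single_le_sum (f := fun i => l i ^ 2) (fun i _ => sq_nonneg _) (Finset.mem_univ i)
      _ ≤ κ * r - κ * r ^ 2 := by linarith
      _ ≤ κ / 4 := by nlinarith [sq_nonneg (r - 1 / 2)]
      _ = δ ^ 2 := by rw [hκd]; ring
  have h7 : l i ≤ δ := abs_le_of_sq_le_sq' h6 hδ.le |>.2
  have h8 : c i - r * kk (a i) u ≤ l i := le_max_left _ _
  linarith

/-- the infinite version, from weak compactness -/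
theorem K_inf [CompleteSpace U] [Nonempty U] (hSL : SLp U) {J : Type*}
    (a : J → U) (c : J → ℝ)
    (h : ∀ (F : Finset J) (l : F → ℝ), (∀ i, 0 ≤ l i) →
      (∑ i, l i * c i) ^ 2 ≤ ∑ j, l j * ∑ i, l i * kk (a i) (a j)) :
    ∃ (r : ℝ) (u : U), 0 ≤ r ∧ r ≤ 1 ∧ ∀ i, c i ≤ r * kk (a i) u := by
  refine WC hSL a c 1 fun F δ hδ => ?_
  obtain ⟨r, u, h0, h1, h2⟩ := K_fin hSL (fun i : F => a i) (fun i : F => c i) (h F) δ hδ
  exact ⟨r, u, h0, h1, fun i hi => h2 ⟨i, hi⟩⟩

end H171AK
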