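import Pool.Agent.H171R3.AK.Star
import Pool.Agent.H171R3.AK.KFin

set_option autoImplicit false

open Real Set Filter Topology

namespace H171AK

/-- `f : Q → U` is a maximal short map: it is `1`-Lipschitz and has no `1`-Lipschitz extension to a
strictly larger subset of `L`. -/
def IsMaximalShort {L U : Type*} [MetricSpace L] [MetricSpace U] (Q : Set L) (f : Q → U) : Prop :=
  (∀ x y : Q, dist (f x) (f y) ≤ dist (x : L) (y : L)) ∧
  ¬ ∃ (Q' : Set L) (g : Q' → U), Q ⊂ Q' ∧ (∀ x y : Q', dist (g x) (g y) ≤ dist (x : L) (y : L)) ∧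
    ∀ (x : L) (hx : x ∈ Q) (hx' : x ∈ Q'), g ⟨x, hx'⟩ = f ⟨x, hx⟩

section ext

variable {L U : Type*} [MetricSpace L] [MetricSpace U] {Q : Set L} {f : Q → U}

theorem ext_point (hf : IsMaximalShort Q f) (p : L) (v : U)
    (h : ∀ q : Q, dist (f q) v ≤ dist (q : L) p) : p ∈ Q := by
  classical
  by_contra hp
  refine hf.2 ⟨insert p Q, fun x => if hx : (x : L) ∈ Q then f ⟨x, hx⟩ else v,
    ssubset_insert hp, ?_, ?_⟩
  · rintro ⟨x, hx⟩ ⟨y, hy⟩
    by_cases hxQ : x ∈ Q
    · by_cases hyQ : y ∈ Q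
      · simp only [dif_pos hxQ, dif_pos hyQ]
        exact hf.1 ⟨x, hxQ⟩ ⟨y, hyQ⟩
      · have : y = p := by
          rcases mem_insert_iff.1 hy with h1 | h1
          · exact h1
          · exact absurd h1 hyQ
        subst this
        simp only [dif_pos hxQ, dif_neg hyQ]
        exact h ⟨x, hxQ⟩
    · have hxp : x = p := by
        rcases mem_insert_iff.1 hx with h1 | h1
        · exact h1
        · exact absurd h1 hxQ
      subst hxp
      by_cases hyQ : y ∈ Q
      · simp only [dif_neg hxQ, dif_pos hyQ]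
        rw [dist_comm, dist_comm x y]
        exact h ⟨y, hyQ⟩
      · have : y = x := by
          rcases mem_insert_iff.1 hy with h1 | h1
          · exact h1
          · exact absurd h1 hyQ
        subst this
        simp
  · intro x hx hx'
    simp only [dif_pos hx]

theorem IsAlex1.le_pi (hL : IsAlex1 L) (x y : L) : dist x y ≤ π := by
  have := hL.per x y x
  rw [dist_self, dist_comm y] at this
  linarith

theorem dist_le_of_cos (hL : IsAlex1 L) (hs : ∀ x y : Q, dist (f x) (f y) ≤ dist (x : L) (y : L))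
    (p : L) (v : U)
    (h : ∀ q : Q, cos (dist (q : L) p) ≤ kk (f q) v) (hne : ∃ q q' : Q, q ≠ q') (q : Q) :
    dist (f q) v ≤ dist (q : L) p := by
  have h1 : ∀ q : Q, dist (q : L) p < π → dist (f q) v ≤ dist (q : L) p := fun q hq =>
    dist_le_of_cos_le_kk dist_nonneg hq (h q)
  rcases (hL.le_pi (q : L) p).lt_or_eq with hq | hq
  · exact h1 q hq
  · obtain ⟨q', hq'⟩ : ∃ q' : Q, q' ≠ q := by
      obtain ⟨a, b, hab⟩ := hne
      by_cases ha : a = q
      · exact ⟨b, fun hb => hab (ha.trans hb.symm)⟩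
      · exact ⟨a, ha⟩
    have h2 : 0 < dist (q : L) q' := dist_pos.2 fun h => hq' (Subtype.ext h.symm)
    have h3 := hL.per (q : L) q' p
    rw [dist_comm p q, hq] at h3
    have h4 := h1 q' (by linarith)
    have h5 := hs q q'
    have h6 := dist_triangle (f q) (f q') v
    rw [hq]
    linarith

theorem ext_cos (hL : IsAlex1 L) (hf : IsMaximalShort Q f) (p : L) (v : U)
    (h : ∀ q : Q, cos (dist (q : L) p) ≤ kk (f q) v) : p ∈ Q := by
  by_cases hne : ∃ q q' : Q, q ≠ q'
  · exact ext_point hf p v (dist_le_of_cos hL hf.1 p v h hne)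
  · push Not at hne
    by_cases he : Nonempty Q
    · obtain ⟨q⟩ := he
      refine ext_point hf p (f q) fun q' => ?_
      rw [hne q' q, dist_self]
      exact dist_nonneg
    · exact ext_point hf p v fun q => absurd ⟨q⟩ he

/-- the constant sequence -/
def cst (x : L) : ℕ → L := fun _ => x

theorem dU_cst (hL : IsAlex1 L) (x y : L) : dU (cst x) (cst y) = dist x y := dU_const hL x y

theorem K_at [Nonempty L] [CompleteSpace U] [Nonempty U] (hL : IsAlex1 L) (hSL : SLp U)
    (hs : ∀ x y : Q, dist (f x) (f y) ≤ dist (x : L) (y : L)) (p : ℕ → L) :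
    ∃ (r : ℝ) (u : U), 0 ≤ r ∧ r ≤ 1 ∧ ∀ q : Q, cos (dU p (cst (q : L))) ≤ r * kk (f q) u := by
  refine K_inf hSL f (fun q : Q => cos (dU p (cst (q : L)))) fun F l hl => ?_
  have := star (dU_AG hL) (dU_hasMin hL) l hl (fun i : F => cst ((i : Q) : L)) p
  refine this.trans (Finset.sum_le_sum fun i _ => mul_le_mul_of_nonneg_left ?_ (hl i))
  refine Finset.sum_le_sum fun j _ => mul_le_mul_of_nonneg_left ?_ (hl j)
  rw [dU_cst hL]
  refine cos_le_kk ?_ (hL.le_pi _ _)
  rw [dist_comm ((i : Q) : L)]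
  exact hs _ _

theorem K_at' [Nonempty L] [CompleteSpace U] [Nonempty U] (hL : IsAlex1 L) (hSL : SLp U)
    (hs : ∀ x y : Q, dist (f x) (f y) ≤ dist (x : L) (y : L)) (p : L) :
    ∃ (r : ℝ) (u : U), 0 ≤ r ∧ r ≤ 1 ∧ ∀ q : Q, cos (dist (q : L) p) ≤ r * kk (f q) u := by
  obtain ⟨r, u, h0, h1, h2⟩ := K_at hL hSL hs (cst p)
  refine ⟨r, u, h0, h1, fun q => ?_⟩
  rw [dist_comm, ← dU_cst hL]
  exact h2 q

/-- (H) -/
theorem no_z [Nonempty L] [CompleteSpace U] (hL : IsAlex1 L) (hSL : SLp U)
    (hf : IsMaximalShort Q f) (hQ : Q ≠ univ) (z : U) (hz : ∀ q : Q, 0 ≤ kk (f q) z) : False := by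
  haveI : Nonempty U := ⟨z⟩
  refine hQ (eq_univ_of_forall fun p => ?_)
  obtain ⟨r, u, h0, h1, h2⟩ := K_at' hL hSL hf.1 p
  set k := kk u z with hk
  set S := (r * k) ^ 2 + (1 - r ^ 2) with hS
  have hr2 : r ^ 2 ≤ 1 := by nlinarith
  have hS0 : 0 ≤ S := by nlinarith [sq_nonneg (r * k)]
  have hsq : sqrt S ^ 2 = S := sq_sqrt hS0
  have ht : r * k ≤ sqrt S := by
    refine le_sqrt_of_sq_le ?_
    linarith
  obtain ⟨R, v, hR0, hR2, hRv⟩ := hSL r (sqrt S - r * k) h0 (by linarith) u z
  have hR1 : R = 1 := by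
    have : R ^ 2 = 1 := by
      rw [hR2, ← hk]
      nlinarith
    nlinarith
  refine ext_cos hL hf p v fun q => ?_
  have e1 := hRv (f q)
  rw [hR1, one_mul] at e1
  have e2 := h2 q
  have e3 : 0 ≤ (sqrt S - r * k) * kk (f q) z := mul_nonneg (by linarith) (hz q)
  linarith

/-- a nonzero point of the cone with nonnegative products gives a contradiction -/
theorem no_cone [Nonempty L] [CompleteSpace U] (hL : IsAlex1 L) (hSL : SLp U)
    (hf : IsMaximalShort Q f) (hQ : Q ≠ univ) (r r' : ℝ) (hr : 0 ≤ r) (hr' : 0 ≤ r') (u u' : U)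
    (h : ∀ q : Q, 0 ≤ r * kk (f q) u + r' * kk (f q) u') :
    r ^ 2 + r' ^ 2 + 2 * r * r' * kk u u' = 0 := by
  obtain ⟨R, v, hR0, hR2, hRv⟩ := hSL r r' hr hr' u u'
  rw [← hR2]
  by_contra hne
  have hRpos : 0 < R := lt_of_le_of_ne hR0 (fun h => hne (by rw [← h]; ring))
  refine no_z hL hSL hf hQ v fun q => ?_
  have := (h q).trans (hRv (f q))
  exact nonneg_of_mul_nonneg_right this hRpos

theorem AG.anti {X : Type*} {d : X → X → ℝ} (h : AG d) {x y : X} (hxy : d x y = π) (z : X) :
    d z y = π - d z x := by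
  have h1 := h.tri x z y
  have h2 := h.per x y z
  have h3 := h.symm x z
  have h4 := h.symm y z
  linarith

theorem AG.anti_cos {X : Type*} {d : X → X → ℝ} (h : AG d) {x y : X} (hxy : d x y = π) (z : X) :
    cos (d z y) = -cos (d z x) := by
  rw [h.anti hxy, cos_pi_sub]

/-- property of the farthest point -/
theorem farthest {X : Type*} {d : X → X → ℝ} (h : AG d) (x y : X)
    (hy : ∀ z, cos (d y x) ≤ cos (d z x)) (q : X) :
    cos (d x y) * cos (d y q) ≤ cos (d x q) := by
  rcases (h.nonneg y q).eq_or_lt with h0 | hpos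
  · have : d x y = d x q := by
      rw [h.symm x y, h.symm x q]
      exact h.eq_of_zero h0.symm x
    rw [← h0, cos_zero, mul_one, this]
  -- small t
  have key : ∀ t : ℝ, 0 < t → t ≤ 1 → t ≤ d y q →
      cos (d x y) * cos (d y q) ≤ cos (d x q) + 2 * t := by
    intro t ht ht1 htq
    obtain ⟨w, hw1, hw2⟩ := h.geo y q t ht.le htq
    have sd := h.side y q w x (by rw [hw1, hw2]; ring)
    rw [hw1, hw2] at sd
    have hsin : 0 ≤ sin (d y q) := sin_nonneg_of_nonneg_of_le_pi hpos.le (h.le_pi _ _)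
    have h1 := mul_le_mul_of_nonneg_left (hy w) hsin
    have hst := half_le_sin ht ht1
    have hct := one_sub_cos_le t
    have hct0 := cos_le_one t
    rw [sin_sub, h.symm y x, h.symm q x] at sd
    rw [h.symm y x] at h1
    have h2 : sin (d y q) * cos (d x y) * (1 - cos t) + cos (d y q) * cos (d x y) * sin t ≤
        sin t * cos (d x q) := by nlinarith
    have h3 : -(t ^ 2 / 2) ≤ sin (d y q) * cos (d x y) * (1 - cos t) := by
      have a1 : |sin (d y q) * cos (d x y)| ≤ 1 := by
        rw [abs_mul]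
        have := abs_sin_le_one (d y q)
        have := abs_cos_le_one (d x y)
        nlinarith [abs_nonneg (sin (d y q)), abs_nonneg (cos (d x y))]
      have a2 := (abs_le.1 a1).1
      nlinarith
    have h4 : sin t * (cos (d x y) * cos (d y q)) ≤ sin t * (cos (d x q) + 2 * t) := by nlinarith
    exact le_of_mul_le_mul_left h4 (by linarith)
  have hlim : Tendsto (fun t : ℝ => cos (d x q) + 2 * t) (𝓝[>] 0) (𝓝 (cos (d x q))) := by
    have c1 : Tendsto (fun t : ℝ => t) (𝓝[>] 0) (𝓝 0) := tendsto_id.mono_left nhdsWithin_le_nhds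
    simpa using (c1.const_mul 2).const_add (cos (d x q))
  refine ge_of_tendsto hlim ?_
  have c1 : Tendsto (fun t : ℝ => t) (𝓝[>] 0) (𝓝 0) := tendsto_id.mono_left nhdsWithin_le_nhds
  have g1 : ∀ᶠ t : ℝ in 𝓝[>] 0, 0 < t := eventually_mem_nhdsWithin
  filter_upwards [g1, c1.eventually_lt_const one_pos, c1.eventually_lt_const hpos] with t a b c
  exact key t a b.le c.le

/-- (F): every point of `Q` has an antipode in `L` -/
theorem exists_antipode [CompleteSpace U] (hL : IsAlex1 L) (hSL : SLp U)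
    (hf : IsMaximalShort Q f) (hQ : Q ≠ univ) (x : Q) : ∃ y : L, dist (x : L) y = π := by
  haveI : Nonempty L := ⟨x⟩
  haveI : Nonempty U := ⟨f x⟩
  have hA := dU_AG hL
  obtain ⟨y, hy⟩ := dU_hasMin hL (Unit) (fun _ => 1) (fun _ => cst (x : L))
  simp only [Finset.univ_unique, one_mul, Finset.sum_const, Finset.card_singleton, one_smul] at hy
  set D := dU (cst (x : L)) y with hD
  have hDy : dU y (cst (x : L)) = D := hA.symm _ _
  have hD0 : 0 ≤ D := hA.nonneg _ _
  have hDπ : D ≤ π := hA.le_pi _ _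
  have hfar : ∀ q : L, dist (q : L) (x : L) ≤ D := by
    intro q
    have := hy (cst q)
    rw [hDy, dU_cst hL] at this
    by_contra hc
    push Not at hc
    have := cos_lt_cos_of_nonneg_of_le_pi hD0 (hL.le_pi q x) hc
    linarith
  have hDeq : D = π := by
    by_contra hne
    have hlt : D < π := lt_of_le_of_ne hDπ hne
    obtain ⟨r', u', h0, h1, h2⟩ := K_at hL hSL hf.1 y
    have hcos : ∀ q : Q, cos D * cos (dU y (cst (q : L))) ≤ cos (dist (x : L) (q : L)) := by
      intro q
      have := farthest hA (cst (x : L)) y hy (cst (q : L))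
      rwa [dU_cst hL] at this
    rcases le_total D (π / 2) with hD2 | hD2
    · refine no_z hL hSL hf hQ (f x) fun q => ?_
      have h3 : dist (f q) (f x) ≤ π / 2 := (hf.1 q x).trans ((hfar q).trans hD2)
      have := cos_le_kk h3 (by linarith [pi_pos])
      rwa [cos_pi_div_two] at this
    · have hc0 : cos D ≤ 0 := cos_nonpos_of_pi_div_two_le_of_le hD2 (by linarith)
      have hc1 : -1 < cos D := by
        rw [← cos_pi]
        exact cos_lt_cos_of_nonneg_of_le_pi hD0 le_rfl hlt
      have hc := no_cone hL hSL hf hQ 1 (-cos D * r') zero_le_one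
        (mul_nonneg (by linarith) h0) (f x) u' (fun q => by
          have e1 : cos (dist (x : L) (q : L)) ≤ kk (f q) (f x) := by
            rw [kk_comm]
            exact cos_le_kk (hf.1 x q) (hL.le_pi _ _)
          have e2 := hcos q
          have e3 := mul_le_mul_of_nonneg_left (h2 q) (show 0 ≤ -cos D by linarith)
          linarith)
      -- 1 + c² r'² - 2 c r' k = 0 forces c r' = ±1
      have e4 := neg_one_le_kk (f x) u'
      have e5 : 0 ≤ -cos D * r' := mul_nonneg (by linarith) h0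
      have e6 : -cos D * r' < 1 := by nlinarith
      nlinarith
  -- now produce the antipode
  have hex : ∀ n : ℕ, ∃ z : L, π - 1 / ((n : ℝ) + 1) < dist (x : L) z := by
    intro n
    have h1 : ∀ᶠ k in (hyperfilter ℕ : Filter ℕ), π - 1 / ((n : ℝ) + 1) < dist (x : L) (y k) := by
      have := tendsto_dU hL (cst (x : L)) y
      rw [← hD, hDeq] at this
      refine this.eventually_const_lt ?_
      have : (0 : ℝ) < 1 / ((n : ℝ) + 1) := by positivity
      linarith
    obtain ⟨k, hk⟩ := h1.exists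
    exact ⟨y k, hk⟩
  choose z hz using hex
  have hC : CauchySeq z := by
    rw [Metric.cauchySeq_iff]
    intro ε hε
    obtain ⟨N, hN⟩ := exists_nat_one_div_lt (show (0 : ℝ) < ε / 2 by positivity)
    refine ⟨N, fun m hm n hn => ?_⟩
    have key : ∀ m, N ≤ m → π - ε / 2 < dist (x : L) (z m) := by
      intro m hm
      have h2 : 1 / ((m : ℝ) + 1) ≤ 1 / ((N : ℝ) + 1) := by
        apply one_div_le_one_div_of_le (by positivity)
        have : (N : ℝ) ≤ m := by exact_mod_cast hm
        linarith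
      linarith [hz m]
    have h3 := hL.per (x : L) (z m) (z n)
    rw [dist_comm (z n) (x : L)] at h3
    linarith [key m hm, key n hn]
  haveI := hL.complete
  obtain ⟨z', hz'⟩ := cauchySeq_tendsto_of_complete hC
  refine ⟨z', le_antisymm (hL.le_pi _ _) ?_⟩
  have h1 : Tendsto (fun n => dist (x : L) (z n)) atTop (𝓝 (dist (x : L) z')) :=
    tendsto_const_nhds.dist hz'
  have h2 : Tendsto (fun n : ℕ => π - 1 / ((n : ℝ) + 1)) atTop (𝓝 π) := by
    simpa using (tendsto_one_div_add_atTop_nhds_zero_nat (𝕜 := ℝ)).const_sub π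
  exact le_of_tendsto_of_tendsto' h2 h1 fun n => (hz n).le

/-- (A): antipodes lie in `Q` and are mapped to points at distance `π` -/
theorem antipode_mem [CompleteSpace U] (hL : IsAlex1 L) (hSL : SLp U)
    (hf : IsMaximalShort Q f) (hQ : Q ≠ univ) (x : Q) (y : L) (hxy : dist (x : L) y = π) :
    ∃ hy : y ∈ Q, dist (f x) (f ⟨y, hy⟩) = π := by
  haveI : Nonempty L := ⟨x⟩
  haveI : Nonempty U := ⟨f x⟩
  obtain ⟨r', u', h0, h1, h2⟩ := K_at' hL hSL hf.1 y
  have hc := no_cone hL hSL hf hQ 1 r' zero_le_one h0 (f x) u' (fun q => by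
    have e1 : cos (dist (x : L) (q : L)) ≤ kk (f q) (f x) := by
      rw [kk_comm]
      exact cos_le_kk (hf.1 x q) (hL.le_pi _ _)
    have e2 := h2 q
    have e3 := hL.per (x : L) q y
    have e4 : dist (q : L) y ≤ π - dist (x : L) q := by
      rw [dist_comm y x, hxy] at e3
      linarith
    have e5 : cos (π - dist (x : L) q) ≤ cos (dist (q : L) y) :=
      cos_le_cos_of_nonneg_of_le_pi dist_nonneg (by linarith [dist_nonneg (x := (x : L)) (y := q)]) e4
    rw [cos_pi_sub] at e5
    linarith)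
  have e4 := neg_one_le_kk (f x) u'
  have hr1 : r' = 1 := by nlinarith [sq_nonneg (1 - r'), mul_nonneg h0 (show 0 ≤ 1 + kk (f x) u' by linarith)]
  subst hr1
  have hk : kk (f x) u' = -1 := by linarith
  have hπ : π ≤ dist (f x) u' := by
    by_contra hlt
    push Not at hlt
    rw [kk_of_le hlt.le] at hk
    have := cos_lt_cos_of_nonneg_of_le_pi (dist_nonneg (x := f x) (y := u')) le_rfl hlt
    rw [cos_pi] at this
    linarith
  have h3 : ∀ q : Q, cos (dist (q : L) y) ≤ kk (f q) u' := fun q => by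
    have := h2 q; rwa [one_mul] at this
  have hy : y ∈ Q := ext_cos hL hf y u' h3
  have hne : ∃ q q' : Q, q ≠ q' := ⟨x, ⟨y, hy⟩, fun h => by
    have : (x : L) = y := congrArg Subtype.val h
    rw [this, dist_self] at hxy
    exact pi_pos.ne hxy⟩
  have h4 := dist_le_of_cos hL hf.1 y u' h3 hne
  have h5 := h4 ⟨y, hy⟩
  simp only [dist_self] at h5
  have h6 : f ⟨y, hy⟩ = u' := dist_le_zero.1 h5
  refine ⟨hy, le_antisymm ?_ ?_⟩
  · exact (hf.1 x ⟨y, hy⟩).trans hxy.le
  · rw [h6]; exact hπ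

theorem exists_anti [CompleteSpace U] (hL : IsAlex1 L) (hSL : SLp U)
    (hf : IsMaximalShort Q f) (hQ : Q ≠ univ) (x : Q) :
    ∃ y : Q, dist (x : L) (y : L) = π ∧ dist (f x) (f y) = π := by
  obtain ⟨y, hy⟩ := exists_antipode hL hSL hf hQ x
  obtain ⟨hyQ, h⟩ := antipode_mem hL hSL hf hQ x y hy
  exact ⟨⟨y, hyQ⟩, hy, h⟩

theorem dist_preserving [CompleteSpace U] (hL : IsAlex1 L) (hSL : SLp U)
    (hf : IsMaximalShort Q f) (hQ : Q ≠ univ) (x y : Q) :
    dist (f x) (f y) = dist (x : L) (y : L) := by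
  obtain ⟨x', h1, h2⟩ := exists_anti hL hSL hf hQ x
  have h3 := dist_triangle (f x) (f y) (f x')
  have h4 := hf.1 x y
  have h5 := hf.1 y x'
  have h6 := hL.per (x : L) y x'
  rw [dist_comm (x' : L) x, h1] at h6
  linarith

end ext

end H171AK
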