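import Mathlib

/-! Universe polymorphic copy of `Pool/Agent/H285R3/SphereKernel.lean` by helper285. -/

set_option autoImplicit false

universe u

namespace H171AK.Sphere

open Filter Topology

/-- the Hilbert space of a real symmetric positive semidefinite kernel -/
theorem gns {Q : Type u} (K : Q → Q → ℝ) (hsymm : ∀ x y, K x y = K y x)
    (hpsd : ∀ f : Q →₀ ℝ, 0 ≤ f.sum fun x a => f.sum fun y b => a * b * K x y) :
    ∃ (H : Type u) (_ : NormedAddCommGroup H) (_ : InnerProductSpace ℝ H) (_ : CompleteSpace H)
      (φ : Q → H), (∀ x y, inner ℝ (φ x) (φ y) = K x y) ∧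
        ∀ v : H, v ∈ closure (Submodule.span ℝ (Set.range φ) : Set H) := by
  let core : PreInnerProductSpace.Core ℝ (Q →₀ ℝ) :=
    { inner := fun f g => f.sum fun x a => g.sum fun y b => a * b * K x y
      conj_inner_symm := by
        intro f g
        simp only [conj_trivial]
        rw [Finsupp.sum_comm]
        refine Finsupp.sum_congr fun x _ => Finsupp.sum_congr fun y _ => ?_
        rw [hsymm]; ring
      re_inner_nonneg := by
        intro f
        exact hpsd f
      add_left := by
        intro f g h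
        rw [Finsupp.sum_add_index'] <;> simp [← Finsupp.sum_add, add_mul]
      smul_left := by
        intro f g r
        rw [Finsupp.sum_smul_index] <;> simp [Finsupp.mul_sum, mul_assoc] }
  let i1 : SeminormedAddCommGroup (Q →₀ ℝ) :=
    @InnerProductSpace.Core.toSeminormedAddCommGroup ℝ (Q →₀ ℝ) _ _ _ core
  let i2 : InnerProductSpace ℝ (Q →₀ ℝ) := InnerProductSpace.ofCore core
  refine ⟨UniformSpace.Completion (Q →₀ ℝ), inferInstance, inferInstance, inferInstance,
    fun x => ((Finsupp.single x (1 : ℝ) : Q →₀ ℝ) : UniformSpace.Completion (Q →₀ ℝ)), ?_, ?_⟩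
  · intro x y
    rw [UniformSpace.Completion.inner_coe]
    show ((Finsupp.single x (1 : ℝ) : Q →₀ ℝ).sum fun x a =>
      (Finsupp.single y (1 : ℝ) : Q →₀ ℝ).sum fun y b => a * b * K x y) = K x y
    simp
  · intro v
    have hd : DenseRange ((↑) : (Q →₀ ℝ) → UniformSpace.Completion (Q →₀ ℝ)) :=
      UniformSpace.Completion.denseRange_coe
    refine closure_mono ?_ (hd v)
    rintro _ ⟨f, rfl⟩
    have : ∀ f : Q →₀ ℝ, (f : UniformSpace.Completion (Q →₀ ℝ)) ∈ Submodule.span ℝ
        (Set.range fun x : Q => ((Finsupp.single x (1 : ℝ) : Q →₀ ℝ) :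
          UniformSpace.Completion (Q →₀ ℝ))) := by
      intro f
      induction f using Finsupp.induction_linear with
      | zero =>
        have : ((0 : Q →₀ ℝ) : UniformSpace.Completion (Q →₀ ℝ)) = 0 :=
          UniformSpace.Completion.coe_zero
        rw [this]
        exact Submodule.zero_mem _
      | add f g hf hg =>
        rw [UniformSpace.Completion.coe_add]
        exact Submodule.add_mem _ hf hg
      | single x a =>
        have : (Finsupp.single x a : Q →₀ ℝ) = a • (Finsupp.single x (1 : ℝ) : Q →₀ ℝ) := by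
          simp
        rw [this, UniformSpace.Completion.coe_smul]
        exact Submodule.smul_mem _ _ (Submodule.subset_span ⟨x, rfl⟩)
    exact this f


theorem psd_finsupp {Q : Type u} (K : Q → Q → ℝ)
    (hpsd : ∀ (ι : Type u) [Fintype ι] (c : ι → ℝ) (q : ι → Q),
      0 ≤ ∑ i, ∑ j, c i * c j * K (q i) (q j)) (f : Q →₀ ℝ) :
    0 ≤ f.sum fun x a => f.sum fun y b => a * b * K x y := by
  have h := hpsd f.support (fun i => f i) (fun i => (i : Q))
  have e : (f.sum fun x a => f.sum fun y b => a * b * K x y)
      = ∑ i : f.support, ∑ j : f.support, f i * f j * K i j := by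
    unfold Finsupp.sum
    rw [← Finset.sum_coe_sort f.support]
    refine Finset.sum_congr rfl fun i _ => ?_
    beta_reduce
    rw [← Finset.sum_coe_sort f.support]
  rw [e]
  exact h

theorem sphere_of_kernel {Q : Type u} [MetricSpace Q] [CompleteSpace Q]
    (hle : ∀ x y : Q, dist x y ≤ Real.pi)
    (hpsd : ∀ (ι : Type u) [Fintype ι] (c : ι → ℝ) (q : ι → Q),
      0 ≤ ∑ i, ∑ j, c i * c j * Real.cos (dist (q i) (q j)))
    (hanti : ∀ x : Q, ∃ y, dist x y = Real.pi)
    (hcomb : ∀ x y : Q, 0 < dist x y → dist x y < Real.pi → ∀ α β : ℝ, 0 ≤ α → 0 ≤ β →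
      α ^ 2 + β ^ 2 + 2 * α * β * Real.cos (dist x y) = 1 →
        ∃ z, ∀ q, Real.cos (dist z q) = α * Real.cos (dist x q) + β * Real.cos (dist y q)) :
    ∃ (H : Type u) (_ : NormedAddCommGroup H) (_ : InnerProductSpace ℝ H) (_ : CompleteSpace H)
      (e : Q ≃ Metric.sphere (0 : H) 1), ∀ x y, dist x y = Real.arccos (inner ℝ (e x : H) (e y : H)) := by
  obtain ⟨H, i1, i2, i3, φ, hφ, hdense⟩ := gns (fun x y : Q => Real.cos (dist x y))
    (fun x y => by rw [dist_comm]) (psd_finsupp _ hpsd)
  have hinner : ∀ x y, inner ℝ (φ x) (φ y) = Real.cos (dist x y) := hφ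
  have hnorm : ∀ x, ‖φ x‖ = 1 := by
    intro x
    have h1 : ‖φ x‖ ^ 2 = 1 := by
      rw [← real_inner_self_eq_norm_sq, hinner, dist_self, Real.cos_zero]
    have h0 : 0 ≤ ‖φ x‖ := norm_nonneg _
    nlinarith
  have hsub : ∀ x y, ‖φ x - φ y‖ = 2 * Real.sin (dist x y / 2) := by
    intro x y
    have h1 : ‖φ x - φ y‖ ^ 2 = (2 * Real.sin (dist x y / 2)) ^ 2 := by
      rw [norm_sub_sq_real, hnorm, hnorm, hinner]
      have : Real.cos (dist x y) = 1 - 2 * Real.sin (dist x y / 2) ^ 2 := by
        have h2 : dist x y = 2 * (dist x y / 2) := by ring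
        conv_lhs => rw [h2]
        rw [Real.cos_two_mul, Real.cos_sq']
        ring
      rw [this]; ring
    have h2 : 0 ≤ 2 * Real.sin (dist x y / 2) := by
      have := Real.sin_nonneg_of_nonneg_of_le_pi (x := dist x y / 2) (by positivity)
        (by have := hle x y; have := Real.pi_pos; linarith)
      linarith
    have h3 : 0 ≤ ‖φ x - φ y‖ := norm_nonneg _
    nlinarith
  -- antipodes
  have hneg : ∀ x y, dist x y = Real.pi → φ y = -φ x := by
    intro x y h
    have h1 : ‖φ x + φ y‖ ^ 2 = 0 := by
      rw [norm_add_sq_real, hnorm, hnorm, hinner, h, Real.cos_pi]; ring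
    have h2 : φ x + φ y = 0 := by
      rw [← norm_eq_zero]
      exact pow_eq_zero_iff (two_ne_zero) |>.1 h1
    exact eq_neg_of_add_eq_zero_right h2
  -- the span
  have hspan : ∀ w ∈ Submodule.span ℝ (Set.range φ), w = 0 ∨ ∃ r : ℝ, 0 < r ∧ ∃ x, w = r • φ x := by
    intro w hw
    induction hw using Submodule.span_induction with
    | mem w hw =>
      obtain ⟨x, rfl⟩ := hw
      exact Or.inr ⟨1, one_pos, x, by simp⟩
    | zero => exact Or.inl rfl
    | smul a w _ ih =>
      rcases ih with rfl | ⟨r, hr, x, rfl⟩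
      · exact Or.inl (by simp)
      · rcases lt_trichotomy a 0 with ha | rfl | ha
        · obtain ⟨y, hy⟩ := hanti x
          refine Or.inr ⟨-a * r, by nlinarith, y, ?_⟩
          rw [hneg x y hy, smul_smul]
          simp
        · exact Or.inl (by simp)
        · exact Or.inr ⟨a * r, by positivity, x, by rw [smul_smul]⟩
    | add w1 w2 _ _ ih1 ih2 =>
      rcases ih1 with rfl | ⟨r, hr, x, rfl⟩
      · simpa using ih2
      rcases ih2 with rfl | ⟨s, hs, y, rfl⟩
      · exact Or.inr ⟨r, hr, x, by simp⟩
      rcases (dist_nonneg (x := x) (y := y)).eq_or_lt with h0 | h0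
      · have : x = y := dist_eq_zero.1 h0.symm
        subst this
        exact Or.inr ⟨r + s, by positivity, x, by rw [add_smul]⟩
      rcases (hle x y).eq_or_lt with hpi | hpi
      · rw [hneg x y hpi]
        rcases lt_trichotomy r s with h | h | h
        · refine Or.inr ⟨s - r, by linarith, y, ?_⟩
          rw [hneg x y hpi]
          module
        · subst h
          exact Or.inl (by module)
        · refine Or.inr ⟨r - s, by linarith, x, ?_⟩
          module
      · have hcos : -1 < Real.cos (dist x y) := by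
          rw [← Real.cos_pi]
          exact Real.cos_lt_cos_of_nonneg_of_le_pi dist_nonneg le_rfl hpi
        have hpos : 0 < r ^ 2 + s ^ 2 + 2 * r * s * Real.cos (dist x y) := by
          nlinarith [mul_pos hr hs, sq_nonneg (r - s), mul_pos (mul_pos hr hs)
            (by linarith : 0 < 1 + Real.cos (dist x y))]
        set N := Real.sqrt (r ^ 2 + s ^ 2 + 2 * r * s * Real.cos (dist x y)) with hN
        have hN0 : 0 < N := Real.sqrt_pos.2 hpos
        have hN2 : N ^ 2 = r ^ 2 + s ^ 2 + 2 * r * s * Real.cos (dist x y) := Real.sq_sqrt hpos.le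
        obtain ⟨z, hz⟩ := hcomb x y h0 hpi (r / N) (s / N) (by positivity) (by positivity) (by
          field_simp
          linarith)
        refine Or.inr ⟨N, hN0, z, ?_⟩
        have hu : ∀ q, inner ℝ (φ q) (φ z - ((r / N) • φ x + (s / N) • φ y)) = 0 := by
          intro q
          rw [inner_sub_right, inner_add_right, inner_smul_right, inner_smul_right, hinner, hinner,
            hinner, dist_comm q z, dist_comm q x, dist_comm q y, hz q]
          ring
        have hu2 : φ z - ((r / N) • φ x + (s / N) • φ y) = 0 := by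
          rw [← norm_eq_zero, ← pow_eq_zero_iff (two_ne_zero), ← real_inner_self_eq_norm_sq]
          conv_lhs => rw [inner_sub_left, inner_add_left, inner_smul_left, inner_smul_left]
          rw [hu, hu, hu]
          simp
        have hu3 : φ z = (r / N) • φ x + (s / N) • φ y := sub_eq_zero.1 hu2
        rw [hu3, smul_add, smul_smul, smul_smul, mul_div_cancel₀ _ hN0.ne',
          mul_div_cancel₀ _ hN0.ne']
  -- closed range
  have hlip : LipschitzWith 1 φ := by
    refine LipschitzWith.of_dist_le_mul fun x y => ?_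
    rw [dist_eq_norm, hsub]
    have h1 := Real.sin_le (x := dist x y / 2) (by positivity)
    simp only [NNReal.coe_one, one_mul]
    linarith
  have hanti' : AntilipschitzWith (Real.pi / 2).toNNReal φ := by
    refine AntilipschitzWith.of_le_mul_dist fun x y => ?_
    have hpi := Real.pi_pos
    rw [dist_eq_norm (φ x), hsub, Real.coe_toNNReal _ (by positivity)]
    have h1 := Real.mul_le_sin (x := dist x y / 2) (by positivity) (by have := hle x y; linarith)
    have h2 : dist x y = Real.pi / 2 * (2 * (2 / Real.pi * (dist x y / 2))) := by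
      field_simp
    have h3 : Real.pi / 2 * (2 * (2 / Real.pi * (dist x y / 2)))
        ≤ Real.pi / 2 * (2 * Real.sin (dist x y / 2)) := by gcongr
    linarith
  have hclosed : IsClosed (Set.range φ) := hanti'.isClosed_range hlip.uniformContinuous
  have hsurj : ∀ v : H, ‖v‖ = 1 → ∃ x, φ x = v := by
    intro v hv
    have : v ∈ closure (Set.range φ) := by
      rw [Metric.mem_closure_iff]
      intro ε hε
      obtain ⟨w, hw, hwd⟩ := Metric.mem_closure_iff.1 (hdense v) (min (ε / 2) (1 / 2)) (by positivity)
      have hw1 : dist v w < ε / 2 := lt_of_lt_of_le hwd (min_le_left _ _)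
      have hw2 : dist v w < 1 / 2 := lt_of_lt_of_le hwd (min_le_right _ _)
      rcases hspan w hw with rfl | ⟨r, hr, x, rfl⟩
      · rw [dist_zero_right, hv] at hw2
        norm_num at hw2
      · refine ⟨φ x, ⟨x, rfl⟩, ?_⟩
        have h1 : ‖r • φ x‖ = r := by rw [norm_smul, hnorm, mul_one, Real.norm_of_nonneg hr.le]
        have h2 : |‖v‖ - ‖r • φ x‖| ≤ dist v (r • φ x) := by
          rw [dist_eq_norm]; exact abs_norm_sub_norm_le _ _
        rw [hv, h1] at h2
        have h3 : dist (r • φ x) (φ x) = |1 - r| := by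
          rw [dist_eq_norm]
          have : r • φ x - φ x = (r - 1) • φ x := by module
          rw [this, norm_smul, hnorm, mul_one, Real.norm_eq_abs, abs_sub_comm]
        have h4 := dist_triangle v (r • φ x) (φ x)
        linarith
    rw [hclosed.closure_eq] at this
    exact this
  have hinj : Function.Injective φ := hanti'.injective
  refine ⟨H, i1, i2, i3, Equiv.ofBijective
    (fun x => (⟨φ x, by rw [mem_sphere_zero_iff_norm]; exact hnorm x⟩ : Metric.sphere (0 : H) 1))
    ⟨?_, ?_⟩, ?_⟩
  · intro x y h
    exact hinj (congrArg Subtype.val h)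
  · rintro ⟨v, hv⟩
    obtain ⟨x, hx⟩ := hsurj v (by rwa [mem_sphere_zero_iff_norm] at hv)
    exact ⟨x, Subtype.ext hx⟩
  · intro x y
    show dist x y = Real.arccos (inner ℝ (φ x) (φ y))
    rw [hinner, Real.arccos_cos dist_nonneg (hle x y)]

end H171AK.Sphere
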