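import Pool.Agent.H171R3.AK.Geo
import Pool.Agent.H171R3.AK.Sphere
import Pool.Agent.H285R3.SL

set_option autoImplicit false

open Real Set Filter Topology

universe u v

namespace H171AK

section fin

variable {L : Type u} {U : Type v} [MetricSpace L] [MetricSpace U] {Q : Set L} {f : Q → U}

theorem SLp_of_CAT (hU : IsCAT1 U) : SLp U := fun r r' hr hr' u u' =>
  Pool.Agent.H285R3.SL.SL hU r r' hr hr' u u'

theorem eq_pi_div_two_of_cos {t : ℝ} (h0 : 0 ≤ t) (hπ : t ≤ π) (h : cos t = 0) : t = π / 2 := by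
  have := arccos_cos h0 hπ
  rw [h, arccos_zero] at this
  exact this.symm

/-- the linear functional on the Hilbert space represented by a point of `L` -/
theorem exists_repr [Nonempty L] (hL : IsAlex1 L)
    (hanti : ∀ x : Q, ∃ y : Q, dist (x : L) (y : L) = π)
    {H : Type u} [NormedAddCommGroup H] [InnerProductSpace ℝ H] [CompleteSpace H]
    (e : Q ≃ Metric.sphere (0 : H) 1)
    (he : ∀ x y : Q, cos (dist (x : L) (y : L)) = inner ℝ (e x : H) (e y : H))
    (q0 : Q) (x : L) :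
    ∃ h : H, ∀ q : Q, cos (dist x (q : L)) = inner ℝ h (e q : H) := by
  have hq : ∀ v : H, ∃ q : Q, ‖v‖ • (e q : H) = v := by
    intro v
    by_cases hv : v = 0
    · exact ⟨q0, by simp [hv]⟩
    · have hn : ‖v‖ ≠ 0 := norm_ne_zero_iff.2 hv
      refine ⟨e.symm ⟨‖v‖⁻¹ • v, ?_⟩, ?_⟩
      · rw [mem_sphere_zero_iff_norm, norm_smul, norm_inv, norm_norm, inv_mul_cancel₀ hn]
      · rw [Equiv.apply_symm_apply, smul_smul, mul_inv_cancel₀ hn, one_smul]
  choose q hq using hq
  have key : ∀ (n : ℕ) (c : Fin n → ℝ) (r : Fin n → Q),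
      (∑ i, c i * cos (dist x (r i : L))) ^ 2 ≤ ‖∑ i, c i • (e (r i) : H)‖ ^ 2 := by
    intro n c r
    refine (psd hL hanti c r x).trans (le_of_eq ?_)
    rw [← real_inner_self_eq_norm_sq, sum_inner]
    refine Finset.sum_congr rfl fun i _ => ?_
    rw [inner_sum]
    refine Finset.sum_congr rfl fun j _ => ?_
    rw [inner_smul_left, inner_smul_right, he]
    simp only [conj_trivial]
    ring
  let B : H → ℝ := fun v => ‖v‖ * cos (dist x (q v : L))
  have hadd : ∀ v w, B (v + w) = B v + B w := by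
    intro v w
    have := key 3 ![‖v‖, ‖w‖, -‖v + w‖] ![q v, q w, q (v + w)]
    simp only [Fin.sum_univ_three, Matrix.cons_val_zero, Matrix.cons_val_one,
      Matrix.cons_val_two, Matrix.head_cons, Matrix.tail_cons, neg_smul, hq] at this
    rw [add_neg_cancel, norm_zero] at this
    have h2 : (B v + B w - B (v + w)) ^ 2 ≤ 0 := by
      refine le_trans (le_of_eq ?_) (this.trans (by norm_num))
      simp only [B]; ring
    have h3 : (B v + B w - B (v + w)) ^ 2 = 0 := le_antisymm h2 (sq_nonneg _)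
    have h4 := pow_eq_zero_iff (two_ne_zero) |>.1 h3
    linarith
  have hsmul : ∀ (t : ℝ) (v : H), B (t • v) = t • B v := by
    intro t v
    have := key 2 ![t * ‖v‖, -‖t • v‖] ![q v, q (t • v)]
    simp only [Fin.sum_univ_two, Matrix.cons_val_zero, Matrix.cons_val_one,
      Matrix.head_cons, neg_smul, hq, mul_smul] at this
    rw [add_neg_cancel, norm_zero] at this
    have h2 : (t * B v - B (t • v)) ^ 2 ≤ 0 := by
      refine le_trans (le_of_eq ?_) (this.trans (by norm_num))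
      simp only [B]; ring
    have h3 : (t * B v - B (t • v)) ^ 2 = 0 := le_antisymm h2 (sq_nonneg _)
    have h4 := pow_eq_zero_iff (two_ne_zero) |>.1 h3
    rw [smul_eq_mul]
    linarith
  let B' : H →ₗ[ℝ] ℝ := { toFun := B, map_add' := hadd, map_smul' := hsmul }
  have hb : ∀ v, ‖B' v‖ ≤ 1 * ‖v‖ := by
    intro v
    show |‖v‖ * cos (dist x (q v : L))| ≤ 1 * ‖v‖
    rw [abs_mul, abs_norm, one_mul]
    exact mul_le_of_le_one_right (norm_nonneg _) (abs_cos_le_one _)
  let B'' : H →L[ℝ] ℝ := B'.mkContinuous 1 hb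
  refine ⟨(InnerProductSpace.toDual ℝ H).symm B'', fun r => ?_⟩
  rw [InnerProductSpace.toDual_symm_apply]
  show _ = ‖(e r : H)‖ * cos (dist x (q (e r : H) : L))
  have hn : ‖(e r : H)‖ = 1 := by
    have := (e r).2
    rwa [mem_sphere_zero_iff_norm] at this
  have h1 := hq (e r : H)
  rw [hn, one_smul] at h1
  have h2 : q (e r : H) = r := e.injective (Subtype.ext h1)
  rw [h2, hn, one_mul]

theorem exists_pole [Nonempty L] (hL : IsAlex1 L)
    (hanti : ∀ x : Q, ∃ y : Q, dist (x : L) (y : L) = π)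
    {H : Type u} [NormedAddCommGroup H] [InnerProductSpace ℝ H] [CompleteSpace H]
    (e : Q ≃ Metric.sphere (0 : H) 1)
    (he : ∀ x y : Q, cos (dist (x : L) (y : L)) = inner ℝ (e x : H) (e y : H))
    (qq : Q) (x : L) (hx : x ∉ Q) :
    ∃ p : L, ∀ q : Q, dist p q = π / 2 := by
  obtain ⟨h, hh⟩ := exists_repr hL hanti e he qq x
  by_cases h0 : h = 0
  · refine ⟨x, fun q => eq_pi_div_two_of_cos dist_nonneg (hL.le_pi _ _) ?_⟩
    rw [hh q, h0, inner_zero_left]
  have hn : ‖h‖ ≠ 0 := norm_ne_zero_iff.2 h0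
  have hn0 : 0 < ‖h‖ := norm_pos_iff.2 h0
  have hmem : ‖h‖⁻¹ • h ∈ Metric.sphere (0 : H) 1 := by
    rw [mem_sphere_zero_iff_norm, norm_smul, norm_inv, norm_norm, inv_mul_cancel₀ hn]
  set q0 : Q := e.symm ⟨‖h‖⁻¹ • h, hmem⟩ with hq0
  have heq0 : (e q0 : H) = ‖h‖⁻¹ • h := by rw [hq0, Equiv.apply_symm_apply]
  set c := ‖h‖ with hc
  have hh2 : ∀ q : Q, cos (dist x (q : L)) = c * cos (dist (q0 : L) (q : L)) := by
    intro q
    rw [hh q, he, heq0, inner_smul_left]
    simp only [conj_trivial]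
    rw [← mul_assoc, mul_inv_cancel₀ hn, one_mul]
  set D := dist x (q0 : L) with hD
  have hcD : cos D = c := by rw [hD, hh2 q0, dist_self, cos_zero, mul_one]
  have hD0 : 0 < D := dist_pos.2 fun h => hx (by rw [h]; exact q0.2)
  have hDπ : D ≤ π := hL.le_pi _ _
  have hDlt : D < π / 2 := by
    by_contra hcon
    push Not at hcon
    have := cos_nonpos_of_pi_div_two_le_of_le hcon (by linarith [pi_pos])
    rw [hcD] at this
    linarith
  have hsD : 0 < sin D := sin_pos_of_pos_of_lt_pi hD0 (by linarith [pi_pos])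
  obtain ⟨q0', hq0'⟩ := hanti q0
  have hA := dU_AG hL
  have hxq' : dist x (q0' : L) = π - D := by
    have := hA.anti (x := cst (q0 : L)) (y := cst (q0' : L)) (by rw [dU_cst hL, hq0']) (cst x)
    rwa [dU_cst hL, dU_cst hL] at this
  have hanti0 : ∀ z : ℕ → L, dU z (cst (q0 : L)) = π - dU z (cst (q0' : L)) := fun z => by
    have := hA.anti (x := cst (q0 : L)) (y := cst (q0' : L)) (by rw [dU_cst hL, hq0']) z
    linarith
  obtain ⟨p, hp1, hp2⟩ := geo_unique hL x (q0' : L) (π / 2 - D) (by linarith)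
    (by rw [hxq']; linarith) (by
    intro p p' h1 h2 h1' h2'
    rw [hxq'] at h2 h2'
    have g1 : dU (cst (q0 : L)) p = π / 2 := by rw [hA.symm, hanti0, h2]; ring
    have g2 : dU (cst (q0 : L)) p' = π / 2 := by rw [hA.symm, hanti0, h2']; ring
    have g3 : dU (cst (q0 : L)) (cst x) = D := by rw [dU_cst hL, dist_comm]
    have sd := hA.side (cst (q0 : L)) p (cst x) p' (by rw [g1, g3, h1]; ring)
    rw [g1, g2, g3, h1, h1', cos_pi_div_two, sin_pi_div_two, sin_pi_div_two_sub,
      cos_pi_div_two_sub] at sd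
    have h5 : 1 ≤ cos (dU p p') := by
      have : sin D * 1 ≤ sin D * cos (dU p p') := by linarith
      exact le_of_mul_le_mul_left this hsD
    have h6 : cos (dU p p') = 1 := le_antisymm (cos_le_one _) h5
    have h7 := arccos_cos (hA.nonneg p p') (hA.le_pi p p')
    rw [h6, arccos_one] at h7
    exact h7.symm)
  rw [hxq'] at hp2
  have hpq0 : dist (q0 : L) p = π / 2 := by
    have := hanti0 (cst p)
    rw [dU_cst hL, dU_cst hL, hp2] at this
    rw [dist_comm, this]; ring
  have hge : ∀ q : Q, 0 ≤ cos (dist p (q : L)) := by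
    intro q
    have sd := side_L hL (q0 : L) p x q (by rw [hpq0, hp1, dist_comm _ x, ← hD]; ring)
    rw [hpq0, hp1, dist_comm _ x, ← hD, sin_pi_div_two, sin_pi_div_two_sub, hh2 q, hcD] at sd
    have : 0 ≤ sin D * cos (dist p (q : L)) := by linarith
    exact nonneg_of_mul_nonneg_right this hsD
  refine ⟨p, fun q => eq_pi_div_two_of_cos dist_nonneg (hL.le_pi _ _) ?_⟩
  obtain ⟨q', hq'⟩ := hanti q
  have h1 := hge q'
  rw [anti_cos_L hL hq'] at h1
  linarith [hge q]

/-- **Maximal short maps from `Alex(1)` to `CAT(1)` spaces** -/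
theorem main (hL : IsAlex1 L) (hU : IsCAT1 U) (Q : Set L) (hQ : Q ≠ univ) (f : Q → U)
    (hf : IsMaximalShort Q f) :
    (∃ (H : Type u) (_ : NormedAddCommGroup H) (_ : InnerProductSpace ℝ H) (_ : CompleteSpace H)
      (e : Q ≃ Metric.sphere (0 : H) 1),
        ∀ x y : Q, dist (x : L) (y : L) = arccos (inner ℝ (e x : H) (e y : H))) ∧
    (∃ p : L, ∀ q : Q, dist p q = π / 2) ∧
    (∀ x y : Q, dist (f x) (f y) = dist (x : L) (y : L)) ∧
    ¬ ∃ p' : U, ∀ q : Q, dist p' (f q) = π / 2 := by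
  have hSL := SLp_of_CAT hU
  have hUc := hU.complete
  obtain ⟨x0, hx0⟩ : ∃ x, x ∉ Q := by
    by_contra hcon
    push Not at hcon
    exact hQ (eq_univ_of_forall hcon)
  have hLn : Nonempty L := ⟨x0⟩
  have hanti : ∀ x : Q, ∃ y : Q, dist (x : L) (y : L) = π := fun x => by
    obtain ⟨y, hy, _⟩ := exists_anti hL hSL hf hQ x
    exact ⟨y, hy⟩
  have hdp := dist_preserving hL hSL hf hQ
  have hQc := complete_Q hL hSL hf
  obtain ⟨H, i1, i2, i3, e, he⟩ := Sphere.sphere_of_kernel (Q := Q) (fun x y => hL.le_pi _ _)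
    (fun ι _ c q => (sq_nonneg _).trans (psd hL hanti c q x0)) hanti
    (fun x y h0 hπ α β hα hβ h1 => comb_Q hL hSL hf hQ x y h0 hπ α β hα hβ h1)
  refine ⟨⟨H, i1, i2, i3, e, he⟩, ?_, hdp, ?_⟩
  · by_cases hne : Nonempty Q
    · obtain ⟨qq⟩ := hne
      refine exists_pole hL hanti e (fun x y => ?_) qq x0 hx0
      have hx := (e x).2
      have hy := (e y).2
      rw [mem_sphere_zero_iff_norm] at hx hy
      have h1 := abs_real_inner_le_norm (e x : H) (e y : H)
      rw [hx, hy, one_mul, abs_le] at h1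
      have h2 : dist (x : L) (y : L) = arccos (inner ℝ (e x : H) (e y : H)) := he x y
      rw [h2, cos_arccos h1.1 h1.2]
    · exact ⟨x0, fun q => absurd ⟨q⟩ hne⟩
  · rintro ⟨p', hp'⟩
    refine no_z hL hSL hf hQ p' fun q => ?_
    rw [kk_of_le (by rw [dist_comm, hp' q]; linarith [pi_pos]), dist_comm, hp' q, cos_pi_div_two]

end fin

end H171AK
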