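import Pool.Agent.H171R3.AK.Ext

set_option autoImplicit false

open Real Set Filter Topology

universe v

namespace H171AK

section geo

variable {L U : Type*} [MetricSpace L] [MetricSpace U] {Q : Set L} {f : Q → U}

/-- uniqueness of the point in the ultrapower gives existence in `L` -/
theorem geo_unique (hL : IsAlex1 L) (x z : L) (s : ℝ) (hs0 : 0 ≤ s) (hs1 : s ≤ dist x z)
    (huniq : ∀ p p' : ℕ → L, dU (cst x) p = s → dU p (cst z) = dist x z - s →
      dU (cst x) p' = s → dU p' (cst z) = dist x z - s → dU p p' = 0) :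
    ∃ p : L, dist x p = s ∧ dist p z = dist x z - s := by
  have hex : ∀ n : ℕ, ∃ p : L, dist x p = s ∧ dist p z ≤ dist x z - s + 1 / ((n : ℝ) + 1) :=
    fun n => near_point hL.length x z s hs0 hs1 _ (by positivity)
  choose p hp1 hp2 using hex
  have hone : Tendsto (fun n : ℕ => 1 / ((n : ℝ) + 1)) atTop (𝓝 0) :=
    tendsto_one_div_add_atTop_nhds_zero_nat
  have hlow : ∀ n, dist x z - s ≤ dist (p n) z := fun n => by
    have := dist_triangle x (p n) z
    rw [hp1 n] at this
    linarith
  -- limits along subsequences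
  have hsub : ∀ φ : ℕ → ℕ, (∀ n, n ≤ φ n) → dU (cst x) (fun n => p (φ n)) = s ∧
      dU (fun n => p (φ n)) (cst z) = dist x z - s := by
    intro φ hφ
    constructor
    · exact tendsto_nhds_unique (tendsto_dU hL (cst x) (fun n => p (φ n))) (by
        simp only [cst, hp1]; exact tendsto_const_nhds)
    · refine tendsto_nhds_unique (tendsto_dU hL (fun n => p (φ n)) (cst z)) ?_
      have h1 : Tendsto (fun n : ℕ => dist x z - s + 1 / ((n : ℝ) + 1)) atTop
          (𝓝 (dist x z - s)) := by simpa using hone.const_add (dist x z - s)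
      have h2 : Tendsto (fun n : ℕ => dist (p (φ n)) z) atTop (𝓝 (dist x z - s)) := by
        refine tendsto_of_tendsto_of_tendsto_of_le_of_le tendsto_const_nhds h1
          (fun n => hlow _) (fun n => ?_)
        have h3 : 1 / ((φ n : ℝ) + 1) ≤ 1 / ((n : ℝ) + 1) := by
          apply one_div_le_one_div_of_le (by positivity)
          have : (n : ℝ) ≤ φ n := by exact_mod_cast hφ n
          linarith
        linarith [hp2 (φ n)]
      exact h2.mono_left Nat.hyperfilter_le_atTop
  have hC : CauchySeq p := by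
    rw [Metric.cauchySeq_iff]
    by_contra hcon
    push Not at hcon
    obtain ⟨ε, hε, hbad⟩ := hcon
    choose φ hφ ψ hψ hd using hbad
    obtain ⟨a1, a2⟩ := hsub φ hφ
    obtain ⟨b1, b2⟩ := hsub ψ hψ
    have h0 := huniq _ _ a1 a2 b1 b2
    have h1 : ε ≤ dU (fun n => p (φ n)) (fun n => p (ψ n)) :=
      ge_of_tendsto' (tendsto_dU hL _ _) hd
    linarith
  have := hL.complete
  obtain ⟨p', hp'⟩ := cauchySeq_tendsto_of_complete hC
  refine ⟨p', ?_, ?_⟩
  · have h1 : Tendsto (fun n => dist x (p n)) atTop (𝓝 (dist x p')) := tendsto_const_nhds.dist hp'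
    simp only [hp1] at h1
    exact (tendsto_nhds_unique h1 tendsto_const_nhds)
  · have h1 : Tendsto (fun n => dist (p n) z) atTop (𝓝 (dist p' z)) := hp'.dist tendsto_const_nhds
    have h2 : Tendsto (fun n : ℕ => dist x z - s + 1 / ((n : ℝ) + 1)) atTop
          (𝓝 (dist x z - s)) := by simpa using hone.const_add (dist x z - s)
    exact le_antisymm (le_of_tendsto_of_tendsto' h1 h2 hp2) (ge_of_tendsto' h1 hlow)

/-- the star inequality with signs, when all `q i` have antipodes -/
theorem star_signed {X : Type*} {d : X → X → ℝ} (h : AG d) (hm : HasMin.{v} d) {ι : Type v}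
    [Fintype ι] (c : ι → ℝ) (q : ι → X) (hq : ∀ i, ∃ y, d (q i) y = π) (p : X) :
    (∑ i, c i * cos (d p (q i))) ^ 2 ≤ ∑ i, ∑ j, c i * c j * cos (d (q i) (q j)) := by
  classical
  choose q' hq' using hq
  have hA : ∀ z i, cos (d z (q' i)) = -cos (d z (q i)) := fun z i => h.anti_cos (hq' i) z
  have hA' : ∀ z i, cos (d (q' i) z) = -cos (d (q i) z) := fun z i => by
    rw [h.symm, hA, h.symm]
  set l : ι → ℝ := fun i => |c i| with hl
  set r : ι → X := fun i => if 0 ≤ c i then q i else q' i with hr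
  have hst := star h hm l (fun i => abs_nonneg _) r p
  have h1 : ∀ z i, l i * cos (d z (r i)) = c i * cos (d z (q i)) := by
    intro z i
    simp only [hl, hr]
    split_ifs with hc
    · rw [abs_of_nonneg hc]
    · rw [hA, abs_of_neg (not_le.1 hc)]; ring
  have h2 : ∀ z i, l i * cos (d (r i) z) = c i * cos (d (q i) z) := by
    intro z i
    rw [h.symm, h1, h.symm]
  have h3 : ∀ i, l i * ∑ j, c j * cos (d (r i) (q j)) = ∑ j, c i * c j * cos (d (q i) (q j)) := by
    intro i
    rw [Finset.mul_sum]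
    refine Finset.sum_congr rfl fun j _ => ?_
    calc l i * (c j * cos (d (r i) (q j))) = c j * (l i * cos (d (r i) (q j))) := by ring
      _ = c j * (c i * cos (d (q i) (q j))) := by rw [h2]
      _ = _ := by ring
  simp only [h1] at hst
  simp only [h3] at hst
  exact hst

variable (hL : IsAlex1 L)

theorem anti_cos_L (hL : IsAlex1 L) {x y : L} (hxy : dist x y = π) (z : L) :
    cos (dist z y) = -cos (dist z x) := by
  have := (dU_AG hL).anti_cos (x := cst x) (y := cst y) (by rw [dU_cst hL, hxy]) (cst z)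
  rwa [dU_cst hL, dU_cst hL] at this

theorem side_L (hL : IsAlex1 L) (u q w z : L) (h : dist u w + dist w q = dist u q) :
    sin (dist u q) * cos (dist w z) ≤
      sin (dist w q) * cos (dist u z) + sin (dist u w) * cos (dist q z) := by
  have := (dU_AG hL).side (cst u) (cst q) (cst w) (cst z) (by
    rw [dU_cst hL, dU_cst hL, dU_cst hL]; exact h)
  simpa only [dU_cst hL] using this

theorem psd [Nonempty L] (hL : IsAlex1 L) (hanti : ∀ x : Q, ∃ y : Q, dist (x : L) (y : L) = π)
    {ι : Type v} [Fintype ι] (c : ι → ℝ) (q : ι → Q) (p : L) :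
    (∑ i, c i * cos (dist p (q i : L))) ^ 2 ≤
      ∑ i, ∑ j, c i * c j * cos (dist (q i : L) (q j : L)) := by
  have := star_signed (dU_AG hL) (dU_hasMin hL) c (fun i => cst (q i : L)) (fun i => by
    obtain ⟨y, hy⟩ := hanti (q i)
    exact ⟨cst (y : L), by rw [dU_cst hL, hy]⟩) (cst p)
  simpa only [dU_cst hL] using this

/-- combinations of two points of `Q` are in `L` -/
theorem comb_L [Nonempty L] (hL : IsAlex1 L)
    (hanti : ∀ x : Q, ∃ y : Q, dist (x : L) (y : L) = π)
    (x y : Q) (h0 : 0 < dist (x : L) y) (hπ : dist (x : L) (y : L) < π) (α β : ℝ) (hα : 0 ≤ α)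
    (hβ : 0 ≤ β)
    (h1 : α ^ 2 + β ^ 2 + 2 * α * β * cos (dist (x : L) y) = 1) :
    ∃ w : L, ∀ q : Q, cos (dist w q) = α * cos (dist (x : L) q) + β * cos (dist (y : L) q) := by
  set D := dist (x : L) y with hD
  have hsD : 0 < sin D := sin_pos_of_pos_of_lt_pi h0 hπ
  have hsc : sin D ^ 2 + cos D ^ 2 = 1 := sin_sq_add_cos_sq D
  set C := α + β * cos D with hC
  have hC2 : C ^ 2 + (β * sin D) ^ 2 = 1 := by
    rw [hC]; nlinarith
  have hC3 : C ^ 2 ≤ 1 := by nlinarith [sq_nonneg (β * sin D)]
  have hC4 := abs_le_of_sq_le_sq' (show C ^ 2 ≤ 1 ^ 2 by linarith) zero_le_one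
  set t := arccos C with ht
  have hct : cos t = C := cos_arccos hC4.1 hC4.2
  have ht0 : 0 ≤ t := arccos_nonneg _
  have htπ : t ≤ π := arccos_le_pi _
  have hst0 : 0 ≤ sin t := sin_nonneg_of_nonneg_of_le_pi ht0 htπ
  have hst : sin t = β * sin D := by
    have : sin t ^ 2 = (β * sin D) ^ 2 := by
      have := sin_sq_add_cos_sq t
      rw [hct] at this
      linarith
    exact (pow_left_inj₀ hst0 (by positivity) two_ne_zero).1 this
  have hsDt : sin (D - t) = α * sin D := by
    rw [sin_sub, hct, hst, hC]; ring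
  have hcDt : cos (D - t) = α * cos D + β := by
    rw [cos_sub, hct, hst, hC]
    linear_combination β * hsc
  have htD : t ≤ D := by
    by_contra hc
    push Not at hc
    have : sin (D - t) < 0 := sin_neg_of_neg_of_neg_pi_lt (by linarith) (by linarith)
    rw [hsDt] at this
    have : 0 ≤ α * sin D := by positivity
    linarith
  have hA := dU_AG hL
  obtain ⟨x', hx'⟩ := hanti x
  obtain ⟨y', hy'⟩ := hanti y
  obtain ⟨w, hw1, hw2⟩ := geo_unique hL (x : L) (y : L) t ht0 htD (by
    intro p p' hp1 hp2 hp1' hp2'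
    -- star with the four points
    have hstar := star hA (dU_hasMin hL) (ι := Fin 4) ![1, 1, 2 * α, 2 * β]
      (fun i => by fin_cases i <;> simp [hα, hβ])
      ![p, p', cst (x' : L), cst (y' : L)] (cst (x : L))
    have hN := (sq_nonneg _).trans hstar
    simp only [Fin.sum_univ_four, Matrix.cons_val_zero, Matrix.cons_val_one,
      Matrix.cons_val_two, Matrix.cons_val_three, Matrix.head_cons, Matrix.tail_cons] at hN
    have ax : ∀ z, cos (dU z (cst (x' : L))) = -cos (dU z (cst (x : L))) :=
      hA.anti_cos (by rw [dU_cst hL, hx'])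
    have ay : ∀ z, cos (dU z (cst (y' : L))) = -cos (dU z (cst (y : L))) :=
      hA.anti_cos (by rw [dU_cst hL, hy'])
    have ax' : ∀ z, cos (dU (cst (x' : L)) z) = -cos (dU (cst (x : L)) z) := fun z => by
      rw [hA.symm, ax, hA.symm]
    have ay' : ∀ z, cos (dU (cst (y' : L)) z) = -cos (dU (cst (y : L)) z) := fun z => by
      rw [hA.symm, ay, hA.symm]
    have e1 : dU p (cst (x : L)) = t := by rw [hA.symm]; exact hp1
    have e2 : dU p' (cst (x : L)) = t := by rw [hA.symm]; exact hp1'
    have e3 : dU (cst (y : L)) p = D - t := by rw [hA.symm]; exact hp2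
    have e4 : dU (cst (y : L)) p' = D - t := by rw [hA.symm]; exact hp2'
    have e5 : dU (cst (y : L)) (cst (x : L)) = D := by rw [dU_cst hL, dist_comm]
    have e6 : dU (cst (x : L)) (cst (y : L)) = D := by rw [dU_cst hL]
    have e7 : dU p' p = dU p p' := hA.symm _ _
    simp only [ax, ay, ax', ay', hA.self, hp1, hp1', hp2, hp2', e1, e2, e3, e4, e5, e6, e7,
      cos_zero, hct, hcDt, hC] at hN
    have h5 : 1 ≤ cos (dU p p') := by nlinarith
    have h6 : cos (dU p p') = 1 := le_antisymm (cos_le_one _) h5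
    have h7 := arccos_cos (hA.nonneg p p') (hA.le_pi p p')
    rw [h6, arccos_one] at h7
    exact h7.symm)
  refine ⟨w, ?_⟩
  have hup : ∀ z : L, cos (dist w z) ≤ α * cos (dist (x : L) z) + β * cos (dist (y : L) z) := by
    intro z
    have sd := side_L hL (x : L) (y : L) w z (by rw [hw1, hw2]; ring)
    rw [hw1, hw2, ← hD, hsDt, hst] at sd
    have : sin D * cos (dist w z) ≤
        sin D * (α * cos (dist (x : L) z) + β * cos (dist (y : L) z)) := by linarith
    exact le_of_mul_le_mul_left this hsD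
  intro q
  refine le_antisymm (hup q) ?_
  obtain ⟨q', hq'⟩ := hanti q
  have := hup q'
  rw [anti_cos_L hL hq', anti_cos_L hL hq', anti_cos_L hL hq'] at this
  linarith

/-- combinations of two points of `Q` are in `Q` -/
theorem comb_Q [CompleteSpace U] (hL : IsAlex1 L) (hSL : SLp U)
    (hf : IsMaximalShort Q f) (hQ : Q ≠ univ)
    (x y : Q) (h0 : 0 < dist (x : L) y) (hπ : dist (x : L) (y : L) < π) (α β : ℝ) (hα : 0 ≤ α)
    (hβ : 0 ≤ β)
    (h1 : α ^ 2 + β ^ 2 + 2 * α * β * cos (dist (x : L) y) = 1) :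
    ∃ w : Q, ∀ q : Q, cos (dist (w : L) q) =
      α * cos (dist (x : L) q) + β * cos (dist (y : L) q) := by
  have : Nonempty L := ⟨x⟩
  have hanti : ∀ x : Q, ∃ y : Q, dist (x : L) (y : L) = π := fun x => by
    obtain ⟨y, hy, _⟩ := exists_anti hL hSL hf hQ x
    exact ⟨y, hy⟩
  obtain ⟨w, hw⟩ := comb_L hL hanti x y h0 hπ α β hα hβ h1
  have hdp := dist_preserving hL hSL hf hQ
  have hkk : ∀ a b : Q, kk (f a) (f b) = cos (dist (a : L) b) := fun a b => by
    rw [kk_of_le (by rw [hdp]; exact hL.le_pi _ _), hdp]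
  obtain ⟨R, v, hR0, hR2, hRv⟩ := hSL α β hα hβ (f x) (f y)
  rw [hkk, h1] at hR2
  have hR1 : R = 1 := by nlinarith
  refine ⟨⟨w, ext_cos hL hf w v fun q => ?_⟩, hw⟩
  have := hRv (f q)
  rw [hkk, hkk, hR1, one_mul] at this
  rw [dist_comm, hw q, dist_comm (x : L), dist_comm (y : L)]
  exact this

theorem complete_Q [CompleteSpace U] (hL : IsAlex1 L) (hSL : SLp U)
    (hf : IsMaximalShort Q f) : CompleteSpace Q := by
  have := hL.complete
  rcases Q.eq_empty_or_nonempty with hE | ⟨x0, hx0⟩
  · subst hE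
    have : IsClosed (∅ : Set L) := isClosed_empty
    exact this.completeSpace_coe
  have hcl : IsClosed Q := by
    rw [isClosed_iff_clusterPt] 
    intro p hp
    rw [← mem_closure_iff_clusterPt, Metric.mem_closure_iff] at hp
    have : Nonempty L := ⟨x0⟩
    have : Nonempty U := ⟨f ⟨x0, hx0⟩⟩
    obtain ⟨r, u, h0, h1, h2⟩ := K_at' hL hSL hf.1 p
    have hr : r = 1 := by
      refine le_antisymm h1 ?_
      by_contra hlt
      push Not at hlt
      obtain ⟨q, hq, hqd⟩ := hp (1 - r) (by linarith)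
      have h3 := h2 ⟨q, hq⟩
      have h4 := kk_le_one (f ⟨q, hq⟩) u
      have h5 : cos (dist q p) ≤ r := by
        refine h3.trans ?_
        nlinarith
      have h6 := one_sub_cos_le (dist q p)
      rw [dist_comm] at hqd
      have h7 : dist q p < 1 := by linarith
      have h8 : 0 ≤ dist q p := dist_nonneg
      nlinarith
    subst hr
    exact ext_cos hL hf p u fun q => by
      have := h2 q; rwa [one_mul] at this
  exact hcl.completeSpace_coe

end geo

end H171AK
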