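import Pool.Agent.H171R3.AK.Defs

set_option autoImplicit false

open Real Set Filter Topology

namespace H171AK

theorem cos_anti' {a s : ℝ} (h0 : 0 ≤ a) (h1 : a ≤ s) (h2 : a ≤ 2 * π - s) : cos s ≤ cos a := by
  rcases le_total s π with h | h
  · exact cos_le_cos_of_nonneg_of_le_pi h0 h h1
  · rw [← cos_two_pi_sub s]
    exact cos_le_cos_of_nonneg_of_le_pi h0 (by linarith) h2

theorem modelAngle_add {α β : ℝ} (hα : 0 < α) (hβ : 0 < β) (h : α + β < π) :
    modelAngle α β (α + β) = π := by
  have h1 : 0 < sin α := sin_pos_of_pos_of_lt_pi hα (by linarith)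
  have h2 : 0 < sin β := sin_pos_of_pos_of_lt_pi hβ (by linarith)
  unfold modelAngle
  have : (cos (α + β) - cos α * cos β) / (sin α * sin β) = -1 := by
    rw [cos_add]
    field_simp
    ring
  rw [this, arccos_neg_one]

theorem cos_modelAngle {γ α a : ℝ} (hα : 0 < α) (hα' : α < π) (hγ : 0 < γ) (hγ' : γ < π)
    (ha : 0 ≤ a) (ha' : a ≤ π)
    (t1 : a ≤ α + γ) (t2 : γ ≤ α + a) (t3 : α ≤ γ + a) (p2 : α + γ + a ≤ 2 * π) :
    cos (modelAngle γ α a) * (sin γ * sin α) = cos a - cos γ * cos α := by
  have h1 : 0 < sin α := sin_pos_of_pos_of_lt_pi hα hα'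
  have h2 : 0 < sin γ := sin_pos_of_pos_of_lt_pi hγ hγ'
  have hs : 0 < sin γ * sin α := mul_pos h2 h1
  unfold modelAngle
  have e1 : cos (α + γ) ≤ cos a := cos_anti' ha t1 (by linarith)
  have e2 : cos a ≤ cos (γ - α) := by
    rw [← cos_abs (γ - α)]
    refine cos_anti' (abs_nonneg _) ?_ ?_
    · rw [abs_le]; constructor <;> linarith
    · rw [abs_le]; constructor <;> linarith
  rw [cos_add] at e1
  rw [cos_sub] at e2
  rw [cos_arccos]
  · field_simp
  · rw [le_div_iff₀ hs]; nlinarith
  · rw [div_le_iff₀ hs]; nlinarith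

theorem side_real {α β γ a b D : ℝ} (hα : 0 ≤ α) (hβ : 0 ≤ β) (hγ : 0 ≤ γ) (ha : 0 ≤ a)
    (hb : 0 ≤ b) (ha' : a ≤ π) (hb' : b ≤ π)
    (hD : α + β = D)
    (t1 : a ≤ α + γ) (t2 : γ ≤ α + a) (t3 : α ≤ γ + a)
    (t4 : b ≤ β + γ) (t5 : γ ≤ β + b) (t6 : β ≤ γ + b)
    (p1 : D + a + b ≤ 2 * π) (p2 : α + γ + a ≤ 2 * π) (p3 : β + γ + b ≤ 2 * π) (p4 : D ≤ π)
    (p5 : γ ≤ π)
    (h : 0 < α → 0 < β → D < π → 0 < γ → γ < π → α + γ + a < 2 * π → β + γ + b < 2 * π →
      modelAngle α β D + modelAngle β γ b + modelAngle γ α a ≤ 2 * π) :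
    sin D * cos γ ≤ sin β * cos a + sin α * cos b := by
  subst hD
  rcases hα.eq_or_lt with h0 | hα0
  · subst h0
    have : a = γ := by linarith
    subst this
    simp
  rcases hβ.eq_or_lt with h0 | hβ0
  · subst h0
    have : b = γ := by linarith
    subst this
    simp
  rcases p4.eq_or_lt with h0 | hD0
  · have e : β = π - α := by linarith
    subst e
    have h1 : 0 ≤ sin α := sin_nonneg_of_nonneg_of_le_pi hα (by linarith)
    have h2 : cos (π - b) ≤ cos a := cos_le_cos_of_nonneg_of_le_pi ha (by linarith) (by linarith)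
    rw [cos_pi_sub] at h2
    rw [sin_pi_sub, h0, sin_pi]
    nlinarith
  rcases hγ.eq_or_lt with h0 | hγ0
  · subst h0
    have e1 : a = α := by linarith
    have e2 : b = β := by linarith
    subst e1 e2
    rw [sin_add, cos_zero]; linarith
  rcases p5.eq_or_lt with h0 | hγπ
  · subst h0
    have e1 : a = π - α := by linarith
    have e2 : b = π - β := by linarith
    subst e1 e2
    rw [sin_add, cos_pi, cos_pi_sub, cos_pi_sub]; linarith
  rcases p2.eq_or_lt with h0 | hp2
  · have e1 : a = 2 * π - (α + γ) := by linarith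
    have e2 : b = γ - β := by linarith
    subst e1 e2
    rw [cos_two_pi_sub, sin_add, cos_add, cos_sub]
    nlinarith
  rcases p3.eq_or_lt with h0 | hp3
  · have e1 : b = 2 * π - (β + γ) := by linarith
    have e2 : a = γ - α := by linarith
    subst e1 e2
    rw [cos_two_pi_sub, sin_add, cos_add, cos_sub]
    nlinarith
  have H := h hα0 hβ0 hD0 hγ0 hγπ hp2 hp3
  rw [modelAngle_add hα0 hβ0 hD0] at H
  have hA := cos_modelAngle (γ := γ) (α := α) (a := a) hα0 (by linarith) hγ0 hγπ ha ha' t1 t2 t3 p2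
  have hB := cos_modelAngle (γ := β) (α := γ) (a := b) hγ0 hγπ hβ0 (by linarith) hb hb'
    (by linarith) (by linarith) (by linarith) (by linarith)
  have hAB : -cos (modelAngle β γ b) ≤ cos (modelAngle γ α a) := by
    rw [← cos_pi_sub]
    refine cos_le_cos_of_nonneg_of_le_pi (arccos_nonneg _) ?_ (by linarith)
    linarith [arccos_nonneg ((cos b - cos β * cos γ) / (sin β * sin γ)),
      show modelAngle β γ b = arccos ((cos b - cos β * cos γ) / (sin β * sin γ)) from rfl]
  have h1 : 0 < sin α := sin_pos_of_pos_of_lt_pi hα0 (by linarith)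
  have h2 : 0 < sin γ := sin_pos_of_pos_of_lt_pi hγ0 hγπ
  have h3 : 0 < sin β := sin_pos_of_pos_of_lt_pi hβ0 (by linarith)
  have h4 : 0 < sin γ * sin α * sin β := by positivity
  have h5 : 0 ≤ (sin γ * sin α * sin β) *
      (cos (modelAngle γ α a) + cos (modelAngle β γ b)) := mul_nonneg h4.le (by linarith)
  have h6 : (sin γ * sin α * sin β) *
      (cos (modelAngle γ α a) + cos (modelAngle β γ b)) =
      sin β * (cos a - cos γ * cos α) + sin α * (cos b - cos β * cos γ) := by
    rw [← hA, ← hB]; ring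
  rw [sin_add]
  nlinarith

/-- the abstract properties of `Alex(1)` used below (in an ultrapower) -/
structure AG {X : Type*} (d : X → X → ℝ) : Prop where
  self : ∀ x, d x x = 0
  symm : ∀ x y, d x y = d y x
  nonneg : ∀ x y, 0 ≤ d x y
  tri : ∀ x y z, d x z ≤ d x y + d y z
  per : ∀ x y z, d x y + d y z + d z x ≤ 2 * π
  geo : ∀ x y r, 0 ≤ r → r ≤ d x y → ∃ w, d x w = r ∧ d w y = d x y - r
  side : ∀ u q w z, d u w + d w q = d u q →
    sin (d u q) * cos (d w z) ≤ sin (d w q) * cos (d u z) + sin (d u w) * cos (d q z)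

theorem AG.le_pi {X : Type*} {d : X → X → ℝ} (h : AG d) (x y : X) : d x y ≤ π := by
  have h1 := h.per x y x
  have h2 := h.self x
  have h3 := h.symm x y
  have h4 := h.self y
  linarith

section ultra

variable {L : Type*} [MetricSpace L]

theorem exists_lim (hL : IsAlex1 L) (x y : ℕ → L) :
    ∃ l : ℝ, Tendsto (fun n => dist (x n) (y n)) (hyperfilter ℕ : Filter ℕ) (𝓝 l) := by
  have hc : IsCompact (Icc (0 : ℝ) π) := isCompact_Icc
  obtain ⟨l, _, hl⟩ := hc.ultrafilter_le_nhds
    ((hyperfilter ℕ).map (fun n => dist (x n) (y n))) (by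
      rw [le_principal_iff]
      change (fun n => dist (x n) (y n)) ⁻¹' Icc 0 π ∈ (hyperfilter ℕ : Filter ℕ)
      refine Filter.univ_mem' fun n => ⟨dist_nonneg, ?_⟩
      have := hL.per (x n) (y n) (x n)
      rw [dist_self, dist_comm (y n)] at this
      linarith)
  exact ⟨l, hl⟩

/-- the distance in the ultrapower -/
noncomputable def dU (x y : ℕ → L) : ℝ :=
  limUnder (hyperfilter ℕ : Filter ℕ) (fun n => dist (x n) (y n))

theorem tendsto_dU (hL : IsAlex1 L) (x y : ℕ → L) :
    Tendsto (fun n => dist (x n) (y n)) (hyperfilter ℕ : Filter ℕ) (𝓝 (dU x y)) :=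
  tendsto_nhds_limUnder (exists_lim hL x y)

theorem dU_const (hL : IsAlex1 L) (x y : L) : dU (fun _ => x) (fun _ => y) = dist x y :=
  tendsto_nhds_unique (tendsto_dU hL _ _) tendsto_const_nhds

theorem dU_AG (hL : IsAlex1 L) : AG (dU (L := L)) where
  self x := tendsto_nhds_unique (tendsto_dU hL x x) (by simp)
  symm x y := tendsto_nhds_unique (tendsto_dU hL x y) (by
    simpa [dist_comm] using tendsto_dU hL y x)
  nonneg x y := ge_of_tendsto' (tendsto_dU hL x y) fun _ => dist_nonneg
  tri x y z := le_of_tendsto_of_tendsto' (tendsto_dU hL x z)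
    ((tendsto_dU hL x y).add (tendsto_dU hL y z)) fun n => dist_triangle _ _ _
  per x y z := le_of_tendsto' (((tendsto_dU hL x y).add (tendsto_dU hL y z)).add
    (tendsto_dU hL z x)) fun n => hL.per _ _ _
  geo x y r h0 h1 := by
    have hn : ∀ n : ℕ, ∃ w : L, dist (x n) w = min r (dist (x n) (y n)) ∧
        dist w (y n) ≤ dist (x n) (y n) - min r (dist (x n) (y n)) + 1 / ((n : ℝ) + 1) := by
      intro n
      exact near_point hL.length (x n) (y n) _ (le_min h0 dist_nonneg) (min_le_right _ _) _
        (by positivity)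
    choose w hw1 hw2 using hn
    have hmin : Tendsto (fun n => min r (dist (x n) (y n))) (hyperfilter ℕ : Filter ℕ) (𝓝 r) := by
      have := (tendsto_const_nhds (x := r)).min (tendsto_dU hL x y)
      rwa [min_eq_left h1] at this
    have e1 : dU x w = r := tendsto_nhds_unique (tendsto_dU hL x w) (by simpa [hw1] using hmin)
    refine ⟨w, e1, le_antisymm ?_ ?_⟩
    · have ht : Tendsto (fun n : ℕ => 1 / ((n : ℝ) + 1)) (hyperfilter ℕ : Filter ℕ) (𝓝 0) :=
        tendsto_one_div_add_atTop_nhds_zero_nat.mono_left Nat.hyperfilter_le_atTop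
      have := le_of_tendsto_of_tendsto' (tendsto_dU hL w y)
        (((tendsto_dU hL x y).sub hmin).add ht) hw2
      simpa using this
    · have := le_of_tendsto_of_tendsto' (tendsto_dU hL x y)
        ((tendsto_dU hL x w).add (tendsto_dU hL w y)) fun n => dist_triangle _ _ _
      rw [e1] at this
      linarith
  side u q w z huq := by
    have T := tendsto_dU hL
    have sy : ∀ a b : ℕ → L, dU a b = dU b a := fun x y =>
      tendsto_nhds_unique (tendsto_dU hL x y) (by simpa [dist_comm] using tendsto_dU hL y x)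
    have nn : ∀ a b : ℕ → L, 0 ≤ dU a b := fun x y =>
      ge_of_tendsto' (tendsto_dU hL x y) fun _ => dist_nonneg
    have tr : ∀ x y z : ℕ → L, dU x z ≤ dU x y + dU y z := fun x y z =>
      le_of_tendsto_of_tendsto' (tendsto_dU hL x z)
        ((tendsto_dU hL x y).add (tendsto_dU hL y z)) fun n => dist_triangle _ _ _
    have pe : ∀ x y z : ℕ → L, dU x y + dU y z + dU z x ≤ 2 * π := fun x y z =>
      le_of_tendsto' (((tendsto_dU hL x y).add (tendsto_dU hL y z)).add
        (tendsto_dU hL z x)) fun n => hL.per _ _ _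
    have se : ∀ x : ℕ → L, dU x x = 0 := fun x =>
      tendsto_nhds_unique (tendsto_dU hL x x) (by simp)
    have lp : ∀ x y : ℕ → L, dU x y ≤ π := fun x y => by
      have := pe x y x
      rw [se, sy y x] at this
      linarith
    refine side_real (nn u w) (nn w q) (nn w z) (nn u z) (nn q z) (lp _ _) (lp _ _) huq
      (tr _ _ _) ?_ ?_ ?_ ?_ ?_ ?_ ?_ ?_ (lp _ _) (lp _ _) ?_
    · have := tr w u z; rw [sy w u] at this; exact this
    · have := tr u z w; rw [sy z w] at this; linarith
    · have := tr q w z; rw [sy q w] at this; exact this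
    · have := tr w q z; exact this
    · have := tr w z q; rw [sy z q] at this; exact this
    · have := pe u q z; rw [sy z u] at this; linarith
    · have := pe u w z; rw [sy z u] at this; linarith
    · have := pe w q z; rw [sy z w] at this; linarith
    intro h1 h2 h3 h4 h5 h6 h7
    have key : ∀ a b c : ℕ → L, 0 < dU a b → dU a b < π → 0 < dU a c → dU a c < π →
        Tendsto (fun n => modelAngle (dist (a n) (b n)) (dist (a n) (c n)) (dist (b n) (c n)))
          (hyperfilter ℕ : Filter ℕ) (𝓝 (modelAngle (dU a b) (dU a c) (dU b c))) := by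
      intro a b c hab hab' hac hac'
      have s1 : 0 < sin (dU a b) := sin_pos_of_pos_of_lt_pi hab hab'
      have s2 : 0 < sin (dU a c) := sin_pos_of_pos_of_lt_pi hac hac'
      unfold modelAngle
      refine (continuous_arccos.tendsto _).comp ?_
      refine Tendsto.div (Tendsto.sub ?_ (Tendsto.mul ?_ ?_)) (Tendsto.mul ?_ ?_)
        (mul_pos s1 s2).ne'
      · exact (continuous_cos.tendsto _).comp (T b c)
      · exact (continuous_cos.tendsto _).comp (T a b)
      · exact (continuous_cos.tendsto _).comp (T a c)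
      · exact (continuous_sin.tendsto _).comp (T a b)
      · exact (continuous_sin.tendsto _).comp (T a c)
    have a1 : 0 < dU w u := by rw [sy]; exact h1
    have a2 : dU w u < π := by rw [sy]; linarith
    have a3 : dU w q < π := by linarith
    have k1 := key w u q a1 a2 h2 a3
    have k2 := key w q z h2 a3 h4 h5
    have k3 := key w z u h4 h5 a1 a2
    have lim := le_of_tendsto ((k1.add k2).add k3) (b := 2 * π) (by
      have e1 : ∀ᶠ n in (hyperfilter ℕ : Filter ℕ), 0 < dist (w n) (u n) :=
        (T w u).eventually_const_lt a1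
      have e2 : ∀ᶠ n in (hyperfilter ℕ : Filter ℕ), 0 < dist (w n) (q n) :=
        (T w q).eventually_const_lt h2
      have e3 : ∀ᶠ n in (hyperfilter ℕ : Filter ℕ), 0 < dist (w n) (z n) :=
        (T w z).eventually_const_lt h4
      have e4 : ∀ᶠ n in (hyperfilter ℕ : Filter ℕ),
          dist (w n) (u n) + dist (w n) (q n) + dist (u n) (q n) < 2 * π :=
        (((T w u).add (T w q)).add (T u q)).eventually_lt_const (by
          rw [sy w u]; linarith)
      have e5 : ∀ᶠ n in (hyperfilter ℕ : Filter ℕ),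
          dist (w n) (q n) + dist (w n) (z n) + dist (q n) (z n) < 2 * π :=
        (((T w q).add (T w z)).add (T q z)).eventually_lt_const (by linarith)
      have e6 : ∀ᶠ n in (hyperfilter ℕ : Filter ℕ),
          dist (w n) (z n) + dist (w n) (u n) + dist (z n) (u n) < 2 * π :=
        (((T w z).add (T w u)).add (T z u)).eventually_lt_const (by
          rw [sy w u, sy z u]; linarith)
      filter_upwards [e1, e2, e3, e4, e5, e6] with n g1 g2 g3 g4 g5 g6
      exact hL.quad (w n) (u n) (q n) (z n) (dist_pos.1 g1) (dist_pos.1 g2) (dist_pos.1 g3)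
        g4 g5 g6)
    rw [sy w u, sy z u] at lim
    exact lim

end ultra

end H171AK
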