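import Pool.Agent.H171R3.AK.Side

set_option autoImplicit false

open Real Set Filter Topology

universe v

namespace H171AK

theorem abs_cos_sub_le (a b : ℝ) : |cos a - cos b| ≤ |a - b| := by
  have := Real.abs_cos_sub_cos_le a b
  exact this

theorem one_sub_cos_le (t : ℝ) : 1 - cos t ≤ t ^ 2 / 2 := by
  have := Real.one_sub_sq_div_two_le_cos (x := t)
  linarith

theorem half_le_sin {t : ℝ} (h0 : 0 < t) (h1 : t ≤ 1) : t / 2 ≤ sin t := by
  have := Real.sin_gt_sub_cube h0
  have h2 : t ^ 3 ≤ t := by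
    have : t ^ 2 ≤ 1 := by nlinarith
    nlinarith
  linarith

/-- numeric part of the core inequality -/
theorem core_num {ι : Type*} [Fintype ι] (l A D X B : ι → ℝ) (hl : ∀ i, 0 ≤ l i)
    (s t s0 ρ N : ℝ) (hs0 : 0 ≤ s0) (ht : 0 < t) (ht2 : t ≤ 1 / 2) (hs : 0 ≤ s) (hst : s ≤ t ^ 2)
    (hsρ : s ≤ ρ) (hρ : ρ ≤ π) (hN : N = ∑ j, l j * B j) (hX : ∀ j, |X j| ≤ 1)
    (hD0 : ∀ j, l j ≠ 0 → 0 ≤ D j) (hDπ : ∀ j, D j ≤ π)
    (hDX : ∀ j, |cos (D j) - X j| ≤ s)
    (hρ0 : s = 0 → ρ = 0 ∧ ∀ j, l j ≠ 0 → A j = cos t)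
    (hMu : ∑ i, l i * X i - s0 * cos ρ ≤ ∑ i, l i * cos (D i) - s0 * cos (ρ - s))
    (h1 : ∀ j, l j ≠ 0 → sin (D j) * (∑ i, l i * X i - s0 * cos ρ + s0 * A j) ≤
      sin (D j - t) * (∑ i, l i * cos (D i)) + sin t * B j)
    (h2 : ∀ j, l j ≠ 0 → sin (D j) * cos t * sin s * cos (ρ - s) +
      sin (ρ - s) * sin t * (cos s * cos (D j) - X j) ≤ sin s * sin (D j) * A j) :
    -((s0 * ∑ i, l i) + 4 * (∑ i, l i) ^ 2) * t ^ 2 ≤ sin t * (N - (∑ i, l i * X i) ^ 2) := by
  set Λ := ∑ i, l i with hΛ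
  set Mx := ∑ i, l i * X i with hMx
  set Mu := ∑ i, l i * cos (D i) with hMud
  set S := ∑ i, l i * sin (D i) with hS
  set T := ∑ i, l i * (sin (D i) * (A i - cos ρ)) with hT
  have hΛ0 : 0 ≤ Λ := Finset.sum_nonneg fun i _ => hl i
  have hsin : ∀ j, l j ≠ 0 → 0 ≤ sin (D j) := fun j hj =>
    sin_nonneg_of_nonneg_of_le_pi (hD0 j hj) (hDπ j)
  have hS0 : 0 ≤ S := by
    refine Finset.sum_nonneg fun i _ => ?_
    by_cases hi : l i = 0
    · simp [hi]
    · exact mul_nonneg (hl i) (hsin i hi)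
  have hS1 : S ≤ Λ := by
    refine Finset.sum_le_sum fun i _ => ?_
    nlinarith [hl i, sin_le_one (D i)]
  have hMx1 : |Mx| ≤ Λ := by
    refine (Finset.abs_sum_le_sum_abs _ _).trans (Finset.sum_le_sum fun i _ => ?_)
    rw [abs_mul, abs_of_nonneg (hl i)]
    nlinarith [hl i, hX i]
  have hMu1 : |Mu| ≤ Λ := by
    refine (Finset.abs_sum_le_sum_abs _ _).trans (Finset.sum_le_sum fun i _ => ?_)
    rw [abs_mul, abs_of_nonneg (hl i)]
    nlinarith [hl i, abs_cos_le_one (D i)]
  have hMM : |Mu - Mx| ≤ Λ * s := by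
    rw [hMud, hMx, ← Finset.sum_sub_distrib, hΛ, Finset.sum_mul]
    refine (Finset.abs_sum_le_sum_abs _ _).trans (Finset.sum_le_sum fun i _ => ?_)
    rw [← mul_sub, abs_mul, abs_of_nonneg (hl i)]
    exact mul_le_mul_of_nonneg_left (hDX i) (hl i)
  have ht1 : 1 - cos t ≤ t ^ 2 / 2 := one_sub_cos_le t
  have hct : cos t ≤ 1 := cos_le_one t
  have hst0 : 0 ≤ sin t := sin_nonneg_of_nonneg_of_le_pi ht.le (by linarith [pi_gt_three])
  have hst1 : sin t ≤ 1 := sin_le_one t
  -- lower bound for T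
  have hTlow : -(Λ * t ^ 2) ≤ T := by
    rcases hs.eq_or_lt with h0 | hspos
    · obtain ⟨e1, e2⟩ := hρ0 h0.symm
      have : T = S * (cos t - 1) := by
        rw [hT, hS, Finset.sum_mul]
        refine Finset.sum_congr rfl fun i _ => ?_
        by_cases hi : l i = 0
        · simp [hi]
        · rw [e2 i hi, e1, cos_zero]; ring
      rw [this]
      nlinarith
    · have hs1 : s ≤ 1 := by nlinarith
      have hss : s / 2 ≤ sin s := half_le_sin hspos hs1
      have hssp : 0 < sin s := by linarith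
      have hsum : S * cos t * sin s * cos (ρ - s) + sin (ρ - s) * sin t * (cos s * Mu - Mx) -
          sin s * S * cos ρ ≤ sin s * T := by
        have : ∑ i, (l i * (sin (D i) * cos t * sin s * cos (ρ - s) +
            sin (ρ - s) * sin t * (cos s * cos (D i) - X i)) - l i * (sin s * sin (D i) * cos ρ)) ≤
            ∑ i, (l i * (sin s * sin (D i) * A i) - l i * (sin s * sin (D i) * cos ρ)) := by
          refine Finset.sum_le_sum fun i _ => ?_
          by_cases hi : l i = 0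
          · simp [hi]
          · have := mul_le_mul_of_nonneg_left (h2 i hi) (hl i)
            linarith
        have e1 : ∑ i, (l i * (sin (D i) * cos t * sin s * cos (ρ - s) +
            sin (ρ - s) * sin t * (cos s * cos (D i) - X i)) - l i * (sin s * sin (D i) * cos ρ)) =
            S * cos t * sin s * cos (ρ - s) + sin (ρ - s) * sin t * (cos s * Mu - Mx) -
            sin s * S * cos ρ := by
          rw [hS, hMud, hMx]
          simp only [Finset.sum_mul, Finset.mul_sum, ← Finset.sum_add_distrib,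
            ← Finset.sum_sub_distrib]
          refine Finset.sum_congr rfl fun i _ => ?_
          ring
        have e2 : ∑ i, (l i * (sin s * sin (D i) * A i) - l i * (sin s * sin (D i) * cos ρ)) =
            sin s * T := by
          rw [hT, Finset.mul_sum]
          refine Finset.sum_congr rfl fun i _ => ?_
          ring
        rw [e1, e2] at this
        exact this
      have hcos : cos ρ ≤ cos (ρ - s) :=
        cos_le_cos_of_nonneg_of_le_pi (by linarith) hρ (by linarith)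
      have hMuMx : Mx ≤ Mu := by nlinarith
      have hcs : 1 - cos s ≤ s ^ 2 / 2 := one_sub_cos_le s
      have hcs1 : cos s ≤ 1 := cos_le_one s
      have hb1 : -(Λ * (s ^ 2 / 2)) ≤ cos s * Mu - Mx := by
        have : (1 - cos s) * Mu ≤ s ^ 2 / 2 * Λ := by
          calc (1 - cos s) * Mu ≤ (1 - cos s) * Λ :=
                mul_le_mul_of_nonneg_left ((le_abs_self _).trans hMu1) (by linarith)
            _ ≤ s ^ 2 / 2 * Λ := mul_le_mul_of_nonneg_right hcs hΛ0
        nlinarith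
      have hsr0 : 0 ≤ sin (ρ - s) := sin_nonneg_of_nonneg_of_le_pi (by linarith) (by linarith)
      have hsr1 : sin (ρ - s) ≤ 1 := sin_le_one _
      have hstt : sin t ≤ t := sin_le ht.le
      have hprod0 : 0 ≤ sin (ρ - s) * sin t := mul_nonneg hsr0 hst0
      have hprod : sin (ρ - s) * sin t ≤ t := by nlinarith
      have hb2 : -(t * (Λ * (s ^ 2 / 2))) ≤ sin (ρ - s) * sin t * (cos s * Mu - Mx) := by
        have hnn : 0 ≤ Λ * (s ^ 2 / 2) := by positivity
        nlinarith
      have hb3 : t * (Λ * (s ^ 2 / 2)) ≤ sin s * (Λ * t ^ 2 / 2) := by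
        have : s ^ 2 / 2 ≤ sin s * s := by nlinarith
        have h5 : Λ * (s ^ 2 / 2) ≤ Λ * (sin s * t ^ 2) := by
          refine mul_le_mul_of_nonneg_left ?_ hΛ0
          nlinarith
        have h6 : t * (Λ * (s ^ 2 / 2)) ≤ (1 / 2) * (Λ * (sin s * t ^ 2)) := by
          have : 0 ≤ Λ * (s ^ 2 / 2) := by positivity
          nlinarith
        linarith
      have hb4 : -(sin s * (Λ * (t ^ 2 / 2))) ≤ sin s * (S * (cos t * cos (ρ - s) - cos ρ)) := by
        rw [← mul_neg]
        refine mul_le_mul_of_nonneg_left ?_ hssp.le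
        have h7 : -(t ^ 2 / 2) ≤ cos t * cos (ρ - s) - cos ρ := by
          have : (1 - cos t) * cos (ρ - s) ≤ (1 - cos t) * 1 :=
            mul_le_mul_of_nonneg_left (cos_le_one _) (by linarith)
          nlinarith
        have h8 : 0 ≤ t ^ 2 / 2 := by positivity
        nlinarith
      have hb5 : sin s * (-(Λ * t ^ 2)) ≤ sin s * T := by
        nlinarith
      exact le_of_mul_le_mul_left hb5 hssp
  -- sum of (I)
  have hI : ∑ i, l i * (sin (D i) * (Mx - s0 * cos ρ + s0 * A i)) ≤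
      ∑ i, l i * (sin (D i - t) * Mu + sin t * B i) := by
    refine Finset.sum_le_sum fun i _ => ?_
    by_cases hi : l i = 0
    · simp [hi]
    · exact mul_le_mul_of_nonneg_left (h1 i hi) (hl i)
  have e1 : ∑ i, l i * (sin (D i) * (Mx - s0 * cos ρ + s0 * A i)) = S * Mx + s0 * T := by
    rw [hS, hT, Finset.sum_mul, Finset.mul_sum, ← Finset.sum_add_distrib]
    refine Finset.sum_congr rfl fun i _ => ?_
    ring
  have e2 : ∑ i, l i * (sin (D i - t) * Mu + sin t * B i) =
      S * cos t * Mu - sin t * Mu ^ 2 + sin t * N := by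
    have : Mu ^ 2 = (∑ i, l i * cos (D i)) * Mu := by rw [← hMud]; ring
    rw [this, hN, hS]
    simp only [Finset.sum_mul, Finset.mul_sum, ← Finset.sum_add_distrib,
            ← Finset.sum_sub_distrib]
    refine Finset.sum_congr rfl fun i _ => ?_
    rw [sin_sub]
    ring
  rw [e1, e2] at hI
  have hst' : Λ * s ≤ Λ * t ^ 2 := mul_le_mul_of_nonneg_left hst hΛ0
  have hMM2 : |Mu - Mx| ≤ Λ * t ^ 2 := hMM.trans hst'
  rw [abs_le] at hMM2 hMu1 hMx1
  have hc1 : cos t * Mu - Mx ≤ Λ * t ^ 2 + Λ * (t ^ 2 / 2) := by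
    have : -(1 - cos t) * Mu ≤ (1 - cos t) * Λ := by nlinarith
    have h9 : (1 - cos t) * Λ ≤ t ^ 2 / 2 * Λ := mul_le_mul_of_nonneg_right ht1 hΛ0
    linarith [hMM2.2]
  have hc2 : S * (cos t * Mu - Mx) ≤ 2 * Λ ^ 2 * t ^ 2 := by
    have h10 : 0 ≤ Λ * t ^ 2 + Λ * (t ^ 2 / 2) := by positivity
    calc S * (cos t * Mu - Mx) ≤ S * (Λ * t ^ 2 + Λ * (t ^ 2 / 2)) :=
          mul_le_mul_of_nonneg_left hc1 hS0
      _ ≤ Λ * (Λ * t ^ 2 + Λ * (t ^ 2 / 2)) := mul_le_mul_of_nonneg_right hS1 h10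
      _ ≤ 2 * Λ ^ 2 * t ^ 2 := by nlinarith [mul_nonneg (sq_nonneg Λ) (sq_nonneg t)]
  have hc3 : Mx ^ 2 - Mu ^ 2 ≤ 2 * Λ ^ 2 * t ^ 2 := by
    have : Mx ^ 2 - Mu ^ 2 = (Mx - Mu) * (Mx + Mu) := by ring
    rw [this]
    have h11 : |(Mx - Mu) * (Mx + Mu)| ≤ (Λ * t ^ 2) * (2 * Λ) := by
      rw [abs_mul]
      refine mul_le_mul ?_ ?_ (abs_nonneg _) (by positivity)
      · rw [abs_le]; constructor <;> linarith
      · rw [abs_le]; constructor <;> linarith
    calc (Mx - Mu) * (Mx + Mu) ≤ _ := le_abs_self _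
      _ ≤ _ := h11
      _ = _ := by ring
  have hc4 : sin t * (Mx ^ 2 - Mu ^ 2) ≤ 2 * Λ ^ 2 * t ^ 2 := by
    have h12 : (0 : ℝ) ≤ 2 * Λ ^ 2 * t ^ 2 := by positivity
    calc sin t * (Mx ^ 2 - Mu ^ 2) ≤ sin t * (2 * Λ ^ 2 * t ^ 2) :=
          mul_le_mul_of_nonneg_left hc3 hst0
      _ ≤ 1 * (2 * Λ ^ 2 * t ^ 2) := mul_le_mul_of_nonneg_right hst1 h12
      _ = _ := one_mul _
  have hc5 : -(s0 * (Λ * t ^ 2)) ≤ s0 * T := by
    have := mul_le_mul_of_nonneg_left hTlow hs0
    linarith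
  nlinarith

variable {X : Type*} {d : X → X → ℝ}

theorem AG.eq_of_zero (h : AG d) {x y : X} (hxy : d x y = 0) (z : X) : d x z = d y z := by
  have h1 := h.tri x y z
  have h2 := h.tri y x z
  have h3 := h.symm x y
  linarith

theorem core (h : AG d) {ι : Type*} [Fintype ι] (l : ι → ℝ) (hl : ∀ i, 0 ≤ l i) (q : ι → X)
    (p x : X) (s0 : ℝ) (hs0 : 0 ≤ s0)
    (hmin : ∀ y, ∑ i, l i * cos (d x (q i)) - s0 * cos (d x p) ≤
      ∑ i, l i * cos (d y (q i)) - s0 * cos (d y p))
    (hpos : ∀ j, l j ≠ 0 → 0 < d x (q j)) :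
    (∑ i, l i * cos (d x (q i))) ^ 2 ≤ ∑ i, l i * ∑ j, l j * cos (d (q i) (q j)) := by
  set G := (∑ i, l i * ∑ j, l j * cos (d (q i) (q j))) - (∑ i, l i * cos (d x (q i))) ^ 2 with hG
  suffices hG0 : 0 ≤ G by linarith
  set K := (s0 * ∑ i, l i) + 4 * (∑ i, l i) ^ 2 with hK
  have hΛ0 : 0 ≤ ∑ i, l i := Finset.sum_nonneg fun i _ => hl i
  have hK0 : 0 ≤ K := by positivity
  -- the inequality for small t
  have key : ∀ t : ℝ, 0 < t → t ≤ 1 / 2 → (0 < d x p → t ^ 2 ≤ d x p) →
      (∀ j, l j ≠ 0 → t + t ^ 2 ≤ d x (q j)) → -K * t ^ 2 ≤ sin t * G := by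
    intro t ht ht2 htp htq
    have hu : ∃ s u, 0 ≤ s ∧ s ≤ t ^ 2 ∧ s ≤ d x p ∧ d x u = s ∧ d u p = d x p - s ∧
        (s = 0 → d x p = 0) := by
      rcases (h.nonneg x p).eq_or_lt with h0 | h0
      · exact ⟨0, x, le_rfl, sq_nonneg _, h0.le, h.self x, by simp, fun _ => h0.symm⟩
      · obtain ⟨u, hu1, hu2⟩ := h.geo x p (t ^ 2) (sq_nonneg t) (htp h0)
        exact ⟨t ^ 2, u, sq_nonneg _, le_rfl, htp h0, hu1, hu2, fun h1 => by
          have : 0 < t ^ 2 := by positivity
          linarith⟩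
    obtain ⟨s, u, hs, hst, hsρ, hxu, hup, hs00⟩ := hu
    have hDd : ∀ j, |d u (q j) - d x (q j)| ≤ s := by
      intro j
      have h1 := h.tri u x (q j)
      have h2 := h.tri x u (q j)
      have h3 := h.symm x u
      rw [abs_le]; constructor <;> linarith
    have hw : ∀ j, ∃ w, l j ≠ 0 → d u w = t ∧ d w (q j) = d u (q j) - t := by
      intro j
      by_cases hj : l j = 0
      · exact ⟨x, fun h => absurd hj h⟩
      · obtain ⟨w, h1, h2⟩ := h.geo u (q j) t ht.le (by
          have h1 := htq j hj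
          have h2 := abs_le.1 (hDd j)
          linarith [h2.1])
        exact ⟨w, fun _ => ⟨h1, h2⟩⟩
    choose w hw using hw
    have hN : (∑ i, l i * ∑ j, l j * cos (d (q i) (q j))) =
        ∑ j, l j * (∑ i, l i * cos (d (q j) (q i))) := rfl
    have := core_num l (fun j => cos (d p (w j))) (fun j => d u (q j)) (fun j => cos (d x (q j)))
      (fun j => ∑ i, l i * cos (d (q j) (q i))) hl s t s0 (d x p) _ hs0 ht ht2 hs hst hsρ
      (h.le_pi _ _) hN (fun j => abs_cos_le_one _) (fun j _ => h.nonneg _ _)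
      (fun j => h.le_pi _ _) (fun j => (abs_cos_sub_le _ _).trans (hDd j)) ?_ ?_ ?_ ?_
    · exact this
    · intro h0
      refine ⟨hs00 h0, fun j hj => ?_⟩
      have e1 : d x p = 0 := hs00 h0
      have e2 : d x u = 0 := by rw [hxu, h0]
      show cos (d p (w j)) = cos t
      rw [← h.eq_of_zero e1, h.eq_of_zero e2, (hw j hj).1]
    · have := hmin u
      rw [hup] at this
      exact this
    · intro j hj
      obtain ⟨w1, w2⟩ := hw j hj
      have hsD : 0 ≤ sin (d u (q j)) := sin_nonneg_of_nonneg_of_le_pi (h.nonneg _ _) (h.le_pi _ _)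
      have m1 := hmin (w j)
      have m2 : ∑ i, l i * cos (d x (q i)) - s0 * cos (d x p) + s0 * cos (d p (w j)) ≤
          ∑ i, l i * cos (d (w j) (q i)) := by
        rw [h.symm p (w j)]; linarith
      refine (mul_le_mul_of_nonneg_left m2 hsD).trans ?_
      rw [Finset.mul_sum, Finset.mul_sum, Finset.mul_sum, ← Finset.sum_add_distrib]
      refine Finset.sum_le_sum fun i _ => ?_
      have sd := h.side u (q j) (w j) (q i) (by rw [w1, w2]; ring)
      rw [w1, w2] at sd
      have := mul_le_mul_of_nonneg_left sd (hl i)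
      linarith
    · intro j hj
      obtain ⟨w1, w2⟩ := hw j hj
      have hsD : 0 ≤ sin (d u (q j)) := sin_nonneg_of_nonneg_of_le_pi (h.nonneg _ _) (h.le_pi _ _)
      have sd1 := h.side u (q j) (w j) x (by rw [w1, w2]; ring)
      have sd2 := h.side x p u (w j) (by rw [hxu, hup]; ring)
      rw [w1, w2, h.symm u x, hxu, h.symm (q j) x, h.symm (w j) x] at sd1
      rw [hxu, hup, w1] at sd2
      have hsr : 0 ≤ sin (d x p - s) := sin_nonneg_of_nonneg_of_le_pi (by linarith)
        (by linarith [h.le_pi x p])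
      have f1 := mul_le_mul_of_nonneg_left sd1 hsr
      have f2 := mul_le_mul_of_nonneg_left sd2 hsD
      have e1 : sin (d x p) = sin (d x p - s) * cos s + cos (d x p - s) * sin s := by
        rw [← sin_add]; ring_nf
      rw [e1] at f2
      rw [sin_sub (d u (q j)) t] at f1
      show sin (d u (q j)) * cos t * sin s * cos (d x p - s) +
        sin (d x p - s) * sin t * (cos s * cos (d u (q j)) - cos (d x (q j))) ≤
        sin s * sin (d u (q j)) * cos (d p (w j))
      nlinarith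
  by_contra hneg
  push Not at hneg
  -- choose small t
  have hev : ∀ᶠ t : ℝ in 𝓝[>] 0, 0 < t ∧ t ≤ 1 / 2 ∧ (0 < d x p → t ^ 2 ≤ d x p) ∧
      (∀ j, l j ≠ 0 → t + t ^ 2 ≤ d x (q j)) ∧ 2 * K * t < -G := by
    have c1 : Tendsto (fun t : ℝ => t) (𝓝[>] 0) (𝓝 0) := tendsto_id.mono_left nhdsWithin_le_nhds
    have c2 : Tendsto (fun t : ℝ => t ^ 2) (𝓝[>] 0) (𝓝 0) := by
      simpa using c1.pow 2
    have c3 : Tendsto (fun t : ℝ => t + t ^ 2) (𝓝[>] 0) (𝓝 0) := by
      simpa using c1.add c2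
    have c4 : Tendsto (fun t : ℝ => 2 * K * t) (𝓝[>] 0) (𝓝 0) := by
      simpa using c1.const_mul (2 * K)
    have g1 : ∀ᶠ t : ℝ in 𝓝[>] 0, 0 < t := eventually_mem_nhdsWithin
    have g2 : ∀ᶠ t : ℝ in 𝓝[>] 0, t < 1 / 2 := c1.eventually_lt_const (by norm_num)
    have g3 : ∀ᶠ t : ℝ in 𝓝[>] 0, (0 < d x p → t ^ 2 ≤ d x p) := by
      by_cases h0 : 0 < d x p
      · filter_upwards [c2.eventually_lt_const h0] with t ht _ using ht.le
      · exact Eventually.of_forall fun t h1 => absurd h1 h0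
    have g4 : ∀ᶠ t : ℝ in 𝓝[>] 0, ∀ j, l j ≠ 0 → t + t ^ 2 ≤ d x (q j) := by
      rw [eventually_all]
      intro j
      by_cases hj : l j = 0
      · exact Eventually.of_forall fun t h1 => absurd hj h1
      · filter_upwards [c3.eventually_lt_const (hpos j hj)] with t ht _ using ht.le
    have g5 : ∀ᶠ t : ℝ in 𝓝[>] 0, 2 * K * t < -G := c4.eventually_lt_const (by linarith)
    filter_upwards [g1, g2, g3, g4, g5] with t a b c d e using ⟨a, b.le, c, d, e⟩
  obtain ⟨t, ht0, ht1, ht2, ht3, ht4⟩ := hev.exists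
  have k := key t ht0 ht1 ht2 ht3
  have hs := half_le_sin ht0 (by linarith)
  have : sin t * G ≤ t / 2 * G := by nlinarith
  nlinarith

/-- dropping the points which coincide with the minimiser -/
theorem core' (h : AG d) {ι : Type*} [Fintype ι] (l : ι → ℝ) (hl : ∀ i, 0 ≤ l i) (q : ι → X)
    (p x : X) (s0 : ℝ) (hs0 : 0 ≤ s0)
    (hmin : ∀ y, ∑ i, l i * cos (d x (q i)) - s0 * cos (d x p) ≤
      ∑ i, l i * cos (d y (q i)) - s0 * cos (d y p)) :
    (∑ i, l i * cos (d x (q i))) ^ 2 ≤ ∑ i, l i * ∑ j, l j * cos (d (q i) (q j)) := by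
  classical
  set l' : ι → ℝ := fun i => if d x (q i) = 0 then 0 else l i with hl'
  have hl'0 : ∀ i, 0 ≤ l' i := fun i => by
    simp only [hl']; split_ifs
    · exact le_rfl
    · exact hl i
  have hc := core h l' hl'0 q p x s0 hs0 ?_ ?_
  · -- transfer
    have e : ∀ m : ι → ℝ, (∑ i, m i * ∑ j, m j * cos (d (q i) (q j))) -
        (∑ i, m i * cos (d x (q i))) ^ 2 =
        ∑ i, ∑ j, m i * m j * (cos (d (q i) (q j)) - cos (d x (q i)) * cos (d x (q j))) := by
      intro m
      rw [sq, Finset.sum_mul_sum, ← Finset.sum_sub_distrib]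
      refine Finset.sum_congr rfl fun i _ => ?_
      rw [Finset.mul_sum, ← Finset.sum_sub_distrib]
      refine Finset.sum_congr rfl fun j _ => ?_
      ring
    have e2 : (∑ i, ∑ j, l' i * l' j * (cos (d (q i) (q j)) - cos (d x (q i)) * cos (d x (q j)))) =
        ∑ i, ∑ j, l i * l j * (cos (d (q i) (q j)) - cos (d x (q i)) * cos (d x (q j))) := by
      refine Finset.sum_congr rfl fun i _ => Finset.sum_congr rfl fun j _ => ?_
      by_cases hi : d x (q i) = 0
      · have : cos (d (q i) (q j)) - cos (d x (q i)) * cos (d x (q j)) = 0 := by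
          rw [← h.eq_of_zero hi (q j), hi, cos_zero]; ring
        rw [this]; simp
      by_cases hj : d x (q j) = 0
      · have : cos (d (q i) (q j)) - cos (d x (q i)) * cos (d x (q j)) = 0 := by
          rw [h.symm (q i) (q j), ← h.eq_of_zero hj (q i), hj, cos_zero]; ring
        rw [this]; simp
      simp only [hl', if_neg hi, if_neg hj]
    have h1 := e l
    have h2 := e l'
    rw [e2, ← h1] at h2
    linarith
  · intro y
    have h1 := hmin y
    have e : ∀ y, ∑ i, l i * cos (d y (q i)) = ∑ i, l' i * cos (d y (q i)) +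
        (∑ i, (if d x (q i) = 0 then l i else 0)) * cos (d y x) := by
      intro y
      rw [Finset.sum_mul, ← Finset.sum_add_distrib]
      refine Finset.sum_congr rfl fun i _ => ?_
      simp only [hl']
      split_ifs with hi
      · rw [h.symm y (q i), h.symm y x, h.eq_of_zero hi y]; ring
      · ring
    rw [e x, e y, h.self, cos_zero] at h1
    have h0 : 0 ≤ ∑ i, (if d x (q i) = 0 then l i else 0) :=
      Finset.sum_nonneg fun i _ => by
        split_ifs
        · exact hl i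
        · exact le_rfl
    nlinarith [cos_le_one (d y x)]
  · intro j hj
    simp only [hl'] at hj
    split_ifs at hj with h0
    · exact absurd rfl hj
    · exact lt_of_le_of_ne (h.nonneg _ _) (Ne.symm h0)

/-- existence of minimisers of finite linear combinations of `cos (d y (q i))` -/
def HasMin {X : Type*} (d : X → X → ℝ) : Prop :=
  ∀ (ι : Type v) [Fintype ι] (a : ι → ℝ) (q : ι → X), ∃ y, ∀ z,
    ∑ i, a i * cos (d y (q i)) ≤ ∑ i, a i * cos (d z (q i))

theorem star (h : AG d) (hm : HasMin.{v} d) {ι : Type v} [Fintype ι] (l : ι → ℝ) (hl : ∀ i, 0 ≤ l i)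
    (q : ι → X) (p : X) :
    (∑ i, l i * cos (d p (q i))) ^ 2 ≤ ∑ i, l i * ∑ j, l j * cos (d (q i) (q j)) := by
  have hΛ0 : 0 ≤ ∑ i, l i := Finset.sum_nonneg fun i _ => hl i
  set Λ := ∑ i, l i with hΛ
  have hex : ∀ n : ℕ, ∃ x, ∀ y, ∑ i, l i * cos (d x (q i)) - (n : ℝ) * cos (d x p) ≤
      ∑ i, l i * cos (d y (q i)) - (n : ℝ) * cos (d y p) := by
    intro n
    obtain ⟨x, hx⟩ := hm (Option ι) (fun o => o.elim (-(n : ℝ)) l) (fun o => o.elim p q)
    refine ⟨x, fun y => ?_⟩
    have := hx y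
    simp only [Fintype.sum_option, Option.elim] at this
    linarith
  choose x hx using hex
  have hM : ∀ y, |∑ i, l i * cos (d y (q i))| ≤ Λ := fun y => by
    refine (Finset.abs_sum_le_sum_abs _ _).trans (Finset.sum_le_sum fun i _ => ?_)
    rw [abs_mul, abs_of_nonneg (hl i)]
    nlinarith [hl i, abs_cos_le_one (d y (q i))]
  have hcos : Tendsto (fun n : ℕ => cos (d (x n) p)) atTop (𝓝 1) := by
    have hlow : ∀ᶠ n : ℕ in atTop, 1 - 2 * Λ / (n : ℝ) ≤ cos (d (x n) p) := by
      filter_upwards [eventually_gt_atTop 0] with n hn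
      have h1 := hx n p
      rw [h.self, cos_zero] at h1
      have h2 := abs_le.1 (hM p)
      have h3 := abs_le.1 (hM (x n))
      have hn' : (0 : ℝ) < n := by exact_mod_cast hn
      have : (n : ℝ) * (1 - cos (d (x n) p)) ≤ 2 * Λ := by linarith [h2.2, h3.1]
      have h4 : 1 - cos (d (x n) p) ≤ 2 * Λ / n := by
        rw [le_div_iff₀ hn']; linarith
      linarith
    have hl1 : Tendsto (fun n : ℕ => 1 - 2 * Λ / (n : ℝ)) atTop (𝓝 1) := by
      have := (tendsto_const_div_atTop_nhds_zero_nat (2 * Λ)).const_sub 1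
      simpa using this
    exact tendsto_of_tendsto_of_tendsto_of_le_of_le' hl1 tendsto_const_nhds hlow
      (Eventually.of_forall fun n => cos_le_one _)
  have hd : Tendsto (fun n : ℕ => d (x n) p) atTop (𝓝 0) := by
    have := (continuous_arccos.tendsto 1).comp hcos
    rw [arccos_one] at this
    refine this.congr fun n => ?_
    exact arccos_cos (h.nonneg _ _) (h.le_pi _ _)
  have hlim : ∀ i, Tendsto (fun n : ℕ => cos (d (x n) (q i))) atTop (𝓝 (cos (d p (q i)))) := by
    intro i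
    refine (continuous_cos.tendsto _).comp ?_
    rw [tendsto_iff_dist_tendsto_zero]
    refine squeeze_zero (fun _ => dist_nonneg) (fun n => ?_) hd
    rw [Real.dist_eq, abs_le]
    have h1 := h.tri (x n) p (q i)
    have h2 := h.tri p (x n) (q i)
    have h3 := h.symm p (x n)
    constructor <;> linarith
  have hlim2 : Tendsto (fun n : ℕ => (∑ i, l i * cos (d (x n) (q i))) ^ 2) atTop
      (𝓝 ((∑ i, l i * cos (d p (q i))) ^ 2)) :=
    (tendsto_finsetSum _ fun i _ => (hlim i).const_mul (l i)).pow 2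
  exact le_of_tendsto' hlim2 fun n => core' h l hl q p (x n) n (Nat.cast_nonneg n) (hx n)

theorem dU_hasMin {L : Type*} [MetricSpace L] [Nonempty L] (hL : IsAlex1 L) :
    HasMin.{v} (dU (L := L)) := by
  intro ι _ a q
  have hb : ∀ n, BddBelow (range fun y : L => ∑ i, a i * cos (dist y (q i n))) := by
    intro n
    refine ⟨-∑ i, |a i|, ?_⟩
    rintro _ ⟨y, rfl⟩
    have : |∑ i, a i * cos (dist y (q i n))| ≤ ∑ i, |a i| := by
      refine (Finset.abs_sum_le_sum_abs _ _).trans (Finset.sum_le_sum fun i _ => ?_)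
      rw [abs_mul]
      nlinarith [abs_nonneg (a i), abs_cos_le_one (dist y (q i n))]
    exact (abs_le.1 this).1
  have hex : ∀ n : ℕ, ∃ y : L, ∀ z : L, ∑ i, a i * cos (dist y (q i n)) ≤
      ∑ i, a i * cos (dist z (q i n)) + 1 / ((n : ℝ) + 1) := by
    intro n
    have hpos : (0 : ℝ) < 1 / ((n : ℝ) + 1) := by positivity
    obtain ⟨y, hy⟩ := exists_lt_of_ciInf_lt (f := fun y : L => ∑ i, a i * cos (dist y (q i n)))
      (lt_add_of_pos_right (⨅ y : L, ∑ i, a i * cos (dist y (q i n))) hpos)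
    refine ⟨y, fun z => hy.le.trans ?_⟩
    have := ciInf_le (hb n) z
    linarith
  choose y hy using hex
  refine ⟨y, fun z => ?_⟩
  have ht : Tendsto (fun n : ℕ => 1 / ((n : ℝ) + 1)) (hyperfilter ℕ : Filter ℕ) (𝓝 0) :=
    tendsto_one_div_add_atTop_nhds_zero_nat.mono_left Nat.hyperfilter_le_atTop
  have hT : ∀ w : ℕ → L, Tendsto (fun n => ∑ i, a i * cos (dist (w n) (q i n)))
      (hyperfilter ℕ : Filter ℕ) (𝓝 (∑ i, a i * cos (dU w (q i)))) := fun w =>
    tendsto_finsetSum _ fun i _ =>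
      ((continuous_cos.tendsto _).comp (tendsto_dU hL w (q i))).const_mul (a i)
  have := le_of_tendsto_of_tendsto' (hT y) ((hT z).add ht) fun n => hy n (z n)
  simpa using this

end H171AK
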